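import Pool.Agent.Q122.FM.Stm

set_option autoImplicit false

/-! Project FM (helper122), job SQ (helper153). -/

namespace Pool.Agent.Q153.FM.Sq

open Finset Filter Topology MeasureTheory Pool.Agent.H306R2.RZ Pool.Agent.H306R2.RG
open Pool.Agent.Q122.FM

noncomputable section

/-- the weight -/
def ff (a : ℕ) (t : ℝ) : ℝ := t ^ ((a : ℝ) / 2 - 3 / 4) * Real.exp (-(Real.pi * t))

theorem ff_nonneg (a : ℕ) {t : ℝ} (ht : 0 ≤ t) : 0 ≤ ff a t :=
  mul_nonneg (Real.rpow_nonneg ht _) (Real.exp_pos _).le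

theorem int_r (r : ℝ) (hr : -1 < r) :
    IntegrableOn (fun t : ℝ => t ^ r * Real.exp (-(Real.pi * t))) (Set.Ioi 0) := by
  have h := integrableOn_rpow_mul_exp_neg_mul_rpow (p := 1) hr one_pos Real.pi_pos
  refine h.congr_fun (fun t _ => ?_) measurableSet_Ioi
  simp only [Real.rpow_one, neg_mul]

theorem ff_int (a : ℕ) : IntegrableOn (ff a) (Set.Ioi 0) :=
  int_r _ (by have : (0 : ℝ) ≤ a := Nat.cast_nonneg a; linarith)

theorem IG_Ici (a : ℕ) (v : ℝ) : IG a v = ∫ t in Set.Ici v, ff a t := by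
  rw [integral_Ici_eq_integral_Ioi]; rfl

theorem IG_nonneg (a : ℕ) {v : ℝ} (hv : 0 ≤ v) : 0 ≤ IG a v :=
  setIntegral_nonneg measurableSet_Ioi fun t ht => ff_nonneg a (hv.trans (le_of_lt ht))

theorem IG_anti (a : ℕ) {v w : ℝ} (hv : 0 ≤ v) (hvw : v ≤ w) : IG a w ≤ IG a v := by
  refine setIntegral_mono_set ((ff_int a).mono_set (Set.Ioi_subset_Ioi hv)) ?_
    (Set.Ioi_subset_Ioi hvw).eventuallyLE
  rw [EventuallyLE, ae_restrict_iff' measurableSet_Ioi]
  exact Eventually.of_forall fun _ ht => ff_nonneg a (hv.trans (le_of_lt ht))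

theorem IG_le (a : ℕ) {v : ℝ} (hv : 0 < v) :
    IG a v ≤ (∫ t in Set.Ioi (0 : ℝ), t ^ ((a : ℝ) / 2 - 3 / 4 + 1) * Real.exp (-(Real.pi * t))) / v := by
  have ha : (0 : ℝ) ≤ a := Nat.cast_nonneg a
  have hi := int_r ((a : ℝ) / 2 - 3 / 4 + 1) (by linarith)
  rw [le_div_iff₀ hv, mul_comm]
  unfold IG
  rw [← integral_const_mul]
  calc ∫ t in Set.Ioi v, v * (t ^ ((a : ℝ) / 2 - 3 / 4) * Real.exp (-(Real.pi * t)))
      ≤ ∫ t in Set.Ioi v, t ^ ((a : ℝ) / 2 - 3 / 4 + 1) * Real.exp (-(Real.pi * t)) := by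
        refine setIntegral_mono_on (((ff_int a).mono_set (Set.Ioi_subset_Ioi hv.le)).const_mul v)
          (hi.mono_set (Set.Ioi_subset_Ioi hv.le)) measurableSet_Ioi fun t ht => ?_
        have ht0 : (0 : ℝ) < t := lt_trans hv ht
        rw [Real.rpow_add_one ht0.ne']
        have h1 : v ≤ t := le_of_lt ht
        have h2 : 0 ≤ t ^ ((a : ℝ) / 2 - 3 / 4) * Real.exp (-(Real.pi * t)) := ff_nonneg a ht0.le
        nlinarith
    _ ≤ ∫ t in Set.Ioi (0 : ℝ), t ^ ((a : ℝ) / 2 - 3 / 4 + 1) * Real.exp (-(Real.pi * t)) := by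
        refine setIntegral_mono_set hi ?_ (Set.Ioi_subset_Ioi hv.le).eventuallyLE
        rw [EventuallyLE, ae_restrict_iff' measurableSet_Ioi]
        exact Eventually.of_forall fun t ht =>
          mul_nonneg (Real.rpow_nonneg (le_of_lt ht) _) (Real.exp_pos _).le

/-- the coefficients -/
def cc (m u : ℕ) : ℝ := if u.Coprime m then 1 / (u : ℝ) else 0

theorem cc_zero (m : ℕ) : cc m 0 = 0 := by simp [cc]

theorem cc_nonneg (m u : ℕ) : 0 ≤ cc m u := by
  unfold cc; split_ifs <;> positivity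

theorem cc_le (m u : ℕ) : cc m u ≤ 1 := by
  unfold cc
  split_ifs
  · rcases Nat.eq_zero_or_pos u with rfl | hu
    · simp
    · rw [div_le_one (by exact_mod_cast hu)]
      exact_mod_cast hu
  · exact zero_le_one

theorem Hm_eq (m : ℕ) (V : ℝ) : Hm m V = ∑ u ∈ range (⌊V⌋₊ + 1), cc m u := by
  have h : range (⌊V⌋₊ + 1) = insert 0 (Icc 1 ⌊V⌋₊) := by
    ext u
    simp only [Finset.mem_range, Finset.mem_insert, Finset.mem_Icc]
    omega
  rw [h, Finset.sum_insert (by simp), cc_zero, zero_add]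
  unfold Hm cc
  rw [Finset.sum_filter]

theorem sq_one (a m : ℕ) {w : ℝ} (hw : 0 < w) :
    HasSum (fun u : ℕ => cc m u * IG a ((u : ℝ) ^ 4 * w))
      (∫ t in Set.Ioi (0 : ℝ), ff a t * Hm m ((t / w) ^ (1 / 4 : ℝ))) := by
  set F : ℕ → ℝ → ℝ := fun u t => cc m u * Set.indicator (Set.Ici ((u : ℝ) ^ 4 * w)) (ff a) t
    with hF
  have hFi : ∀ u, Integrable (F u) (volume.restrict (Set.Ioi 0)) := fun u =>
    ((ff_int a).indicator measurableSet_Ici).const_mul _
  have hFn : ∀ u, ∀ t ∈ Set.Ioi (0 : ℝ), 0 ≤ F u t := fun u t ht =>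
    mul_nonneg (cc_nonneg m u) (by
      rw [Set.indicator_apply]
      split_ifs
      · exact ff_nonneg a (le_of_lt ht)
      · exact le_rfl)
  have hFe : ∀ u, ∫ t in Set.Ioi (0 : ℝ), F u t = cc m u * IG a ((u : ℝ) ^ 4 * w) := by
    intro u
    rcases Nat.eq_zero_or_pos u with rfl | hu
    · simp [hF, cc_zero]
    · have hu' : (0 : ℝ) < (u : ℝ) ^ 4 * w := by positivity
      simp only [hF]
      rw [integral_const_mul, setIntegral_indicator measurableSet_Ici, IG_Ici]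
      have hin : Set.Ioi (0 : ℝ) ∩ Set.Ici ((u : ℝ) ^ 4 * w) = Set.Ici ((u : ℝ) ^ 4 * w) :=
        Set.inter_eq_right.mpr fun t ht => lt_of_lt_of_le hu' ht
      rw [hin]
  have hsum : Summable fun u => ∫ t, ‖F u t‖ ∂(volume.restrict (Set.Ioi 0)) := by
    have e : ∀ u, ∫ t, ‖F u t‖ ∂(volume.restrict (Set.Ioi 0)) = cc m u * IG a ((u : ℝ) ^ 4 * w) := by
      intro u
      rw [← hFe u]
      refine setIntegral_congr_fun measurableSet_Ioi fun t ht => ?_
      exact Real.norm_of_nonneg (hFn u t ht)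
    simp only [e]
    refine Summable.of_nonneg_of_le (fun u => mul_nonneg (cc_nonneg m u)
      (IG_nonneg a (by positivity))) (fun u => ?_)
      ((Real.summable_one_div_nat_pow.mpr (show 1 < 4 by norm_num)).mul_left
      ((∫ t in Set.Ioi (0 : ℝ), t ^ ((a : ℝ) / 2 - 3 / 4 + 1) * Real.exp (-(Real.pi * t))) / w))
    rcases Nat.eq_zero_or_pos u with rfl | hu
    · rw [cc_zero]; simp
    · have hu' : (0 : ℝ) < (u : ℝ) ^ 4 * w := by positivity
      calc cc m u * IG a ((u : ℝ) ^ 4 * w) ≤ 1 * IG a ((u : ℝ) ^ 4 * w) :=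
            mul_le_mul_of_nonneg_right (cc_le m u) (IG_nonneg a hu'.le)
        _ ≤ (∫ t in Set.Ioi (0 : ℝ), t ^ ((a : ℝ) / 2 - 3 / 4 + 1) * Real.exp (-(Real.pi * t))) /
            ((u : ℝ) ^ 4 * w) := by rw [one_mul]; exact IG_le a hu'
        _ = _ := by
            generalize (∫ t in Set.Ioi (0 : ℝ), t ^ ((a : ℝ) / 2 - 3 / 4 + 1) *
              Real.exp (-(Real.pi * t))) = X
            have : (0 : ℝ) < u := by exact_mod_cast hu
            field_simp
  have h1 := hasSum_integral_of_summable_integral_norm hFi hsum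
  have e2 : ∫ t in Set.Ioi (0 : ℝ), ∑' u, F u t =
      ∫ t in Set.Ioi (0 : ℝ), ff a t * Hm m ((t / w) ^ (1 / 4 : ℝ)) := by
    refine setIntegral_congr_fun measurableSet_Ioi fun t ht => ?_
    have ht0 : (0 : ℝ) < t := ht
    have hiff : ∀ u : ℕ, (u : ℝ) ^ 4 * w ≤ t ↔ u < ⌊(t / w) ^ (1 / 4 : ℝ)⌋₊ + 1 := by
      intro u
      rw [Nat.lt_succ_iff, Nat.le_floor_iff (by positivity), ← le_div_iff₀ hw]
      constructor
      · intro h
        have := Real.rpow_le_rpow (by positivity) h (show (0 : ℝ) ≤ 1 / 4 by norm_num)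
        rwa [← Real.rpow_natCast, ← Real.rpow_mul (by positivity), show (((4 : ℕ) : ℝ) * (1 / 4)) = 1 by
          norm_num, Real.rpow_one] at this
      · intro h
        have := pow_le_pow_left₀ (by positivity) h 4
        rwa [← Real.rpow_natCast ((t / w) ^ (1 / 4 : ℝ)) 4, ← Real.rpow_mul (by positivity),
          show ((1 / 4 : ℝ) * ((4 : ℕ) : ℝ)) = 1 by norm_num, Real.rpow_one] at this
    show ∑' u, F u t = ff a t * Hm m ((t / w) ^ (1 / 4 : ℝ))
    rw [Hm_eq, Finset.mul_sum, tsum_eq_sum (s := range (⌊(t / w) ^ (1 / 4 : ℝ)⌋₊ + 1))]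
    · refine Finset.sum_congr rfl fun u hu => ?_
      simp only [hF]
      rw [Set.indicator_of_mem (show t ∈ Set.Ici ((u : ℝ) ^ 4 * w) from
        (hiff u).mpr (Finset.mem_range.mp hu)), mul_comm]
    · intro u hu
      simp only [hF]
      rw [Set.indicator_of_notMem (show t ∉ Set.Ici ((u : ℝ) ^ 4 * w) from
        fun h => hu (Finset.mem_range.mpr ((hiff u).mp h))), mul_zero]
  rw [e2] at h1
  have e3 : (fun u => ∫ t, F u t ∂(volume.restrict (Set.Ioi 0))) =
      fun u => cc m u * IG a ((u : ℝ) ^ 4 * w) := funext hFe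
  rw [e3] at h1
  exact h1

/-- the approximation of one integral -/
theorem sq_err (lmi : S_LMI) {C : ℝ} (a : ℕ) (ha : a = 0 ∨ a = 1) (m : ℕ) {w : ℝ} (hw : 0 < w)
    (hC : ∀ V : ℝ, 0 < V →
      |Hm m V - (m.totient : ℝ) / m * (Real.log V + Real.eulerMascheroniConstant + Lam m)| ≤
        C * V ^ (-(1 / 2) : ℝ) * ∑ g ∈ m.divisors, 1 / Real.sqrt g) :
    |(∫ t in Set.Ioi (0 : ℝ), ff a t * Hm m ((t / w) ^ (1 / 4 : ℝ))) -
      gm (1 / 2 + a) * ((m.totient : ℝ) / m) * ((lam a + Real.log (1 / w)) / 4 +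
        Real.eulerMascheroniConstant + Lam m)| ≤
      C * w ^ (1 / 8 : ℝ) * (∑ g ∈ m.divisors, 1 / Real.sqrt g) *
        ∫ t in Set.Ioi (0 : ℝ), t ^ ((a : ℝ) / 2 - 3 / 4 - 1 / 8) * Real.exp (-(Real.pi * t)) := by
  obtain ⟨i1, i2, i3, i4⟩ := lmi a ha
  have ha0 : (0 : ℝ) ≤ a := Nat.cast_nonneg a
  have i5 := int_r ((a : ℝ) / 2 - 3 / 4 - 1 / 8) (by linarith)
  set σ : ℝ := ∑ g ∈ m.divisors, 1 / Real.sqrt g with hσ
  set Q : ℝ := (m.totient : ℝ) / m with hQ
  set γ : ℝ := Real.eulerMascheroniConstant with hγ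
  -- main integrand
  set M : ℝ → ℝ := fun t => ff a t * (Q * (Real.log ((t / w) ^ (1 / 4 : ℝ)) + γ + Lam m)) with hM
  have hMe : ∀ t ∈ Set.Ioi (0 : ℝ), M t = Q / 4 * (t ^ ((a : ℝ) / 2 - 3 / 4) *
      Real.exp (-(Real.pi * t)) * Real.log t) + Q * (Real.log (1 / w) / 4 + γ + Lam m) *
      (t ^ ((a : ℝ) / 2 - 3 / 4) * Real.exp (-(Real.pi * t))) := by
    intro t ht
    have ht0 : (0 : ℝ) < t := ht
    simp only [hM, ff]
    rw [Real.log_rpow (by positivity), Real.log_div ht0.ne' hw.ne', one_div w, Real.log_inv]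
    ring
  have hMi : IntegrableOn M (Set.Ioi 0) := by
    refine ((i2.const_mul (Q / 4)).add (i1.const_mul (Q * (Real.log (1 / w) / 4 + γ + Lam m)))).congr ?_
    rw [EventuallyEq, ae_restrict_iff' measurableSet_Ioi]
    exact Eventually.of_forall fun t ht => (hMe t ht).symm
  have hMv : ∫ t in Set.Ioi (0 : ℝ), M t = gm (1 / 2 + a) * Q *
      ((lam a + Real.log (1 / w)) / 4 + γ + Lam m) := by
    rw [setIntegral_congr_fun measurableSet_Ioi hMe, integral_add (i2.const_mul _)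
      (i1.const_mul _), integral_const_mul, integral_const_mul, i3, i4]
    ring
  -- the error integrand
  have hE : ∀ t ∈ Set.Ioi (0 : ℝ), ‖ff a t * Hm m ((t / w) ^ (1 / 4 : ℝ)) - M t‖ ≤
      C * w ^ (1 / 8 : ℝ) * σ * (t ^ ((a : ℝ) / 2 - 3 / 4 - 1 / 8) *
        Real.exp (-(Real.pi * t))) := by
    intro t ht
    have ht0 : (0 : ℝ) < t := ht
    have h1 := hC ((t / w) ^ (1 / 4 : ℝ)) (by positivity)
    simp only [hM]
    rw [← mul_sub, norm_mul, Real.norm_of_nonneg (ff_nonneg a ht0.le), Real.norm_eq_abs]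
    refine (mul_le_mul_of_nonneg_left h1 (ff_nonneg a ht0.le)).trans (le_of_eq ?_)
    rw [← Real.rpow_mul (by positivity), show ((1 / 4 : ℝ) * -(1 / 2)) = -(1 / 8) by norm_num,
      Real.div_rpow ht0.le hw.le, Real.rpow_neg hw.le, div_inv_eq_mul]
    unfold ff
    rw [sub_eq_add_neg ((a : ℝ) / 2 - 3 / 4) (1 / 8), Real.rpow_add ht0]
    ring
  have hmeas : AEStronglyMeasurable (fun t : ℝ => ff a t * Hm m ((t / w) ^ (1 / 4 : ℝ)))
      (volume.restrict (Set.Ioi 0)) := by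
    refine (ff_int a).aestronglyMeasurable.mul ?_
    have h1 : Measurable fun t : ℝ => Hm m ((t / w) ^ (1 / 4 : ℝ)) := by
      have h2 : (fun t : ℝ => Hm m ((t / w) ^ (1 / 4 : ℝ))) =
          (fun k : ℕ => ∑ u ∈ range (k + 1), cc m u) ∘ (fun t : ℝ => ⌊(t / w) ^ (1 / 4 : ℝ)⌋₊) := by
        funext t
        simp only [Function.comp, Hm_eq]
      rw [h2]
      refine (measurable_of_countable _).comp (Nat.measurable_floor.comp ?_)
      exact (measurable_id.div_const w).pow_const _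
    exact h1.aestronglyMeasurable
  have hDi : IntegrableOn (fun t : ℝ => ff a t * Hm m ((t / w) ^ (1 / 4 : ℝ)) - M t) (Set.Ioi 0) := by
    refine (i5.const_mul (C * w ^ (1 / 8 : ℝ) * σ)).mono' (hmeas.sub hMi.aestronglyMeasurable) ?_
    rw [ae_restrict_iff' measurableSet_Ioi]
    exact Eventually.of_forall hE
  have hHi : IntegrableOn (fun t : ℝ => ff a t * Hm m ((t / w) ^ (1 / 4 : ℝ))) (Set.Ioi 0) := by
    refine (hDi.add hMi).congr (Eventually.of_forall fun t => ?_)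
    simp
  rw [← hMv, ← integral_sub hHi hMi, ← Real.norm_eq_abs, ← integral_const_mul]
  refine (norm_integral_le_integral_norm _).trans ?_
  exact setIntegral_mono_on hDi.norm (i5.const_mul _) measurableSet_Ioi hE

/-- the divisors of `2d` -/
theorem div_two {d : ℕ} (hd : Odd d) : ∑ g ∈ (2 * d).divisors, 1 / Real.sqrt g ≤
    2 * ∑ g ∈ d.divisors, 1 / Real.sqrt g := by
  have hd0 : d ≠ 0 := by rintro rfl; exact absurd hd (by decide)
  have hsub : (2 * d).divisors ⊆ d.divisors ∪ d.divisors.image (fun g => 2 * g) := by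
    intro g hg
    rw [Nat.mem_divisors] at hg
    rw [Finset.mem_union, Finset.mem_image]
    by_cases h : 2 ∣ g
    · obtain ⟨k, rfl⟩ := h
      exact Or.inr ⟨k, Nat.mem_divisors.mpr ⟨Nat.dvd_of_mul_dvd_mul_left two_pos hg.1, hd0⟩, rfl⟩
    · refine Or.inl (Nat.mem_divisors.mpr ⟨?_, hd0⟩)
      exact Nat.Coprime.dvd_of_dvd_mul_left
        ((Nat.Prime.coprime_iff_not_dvd Nat.prime_two).mpr h).symm hg.1
  have hnn : ∀ g : ℕ, (0 : ℝ) ≤ 1 / Real.sqrt g := fun g => by positivity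
  calc ∑ g ∈ (2 * d).divisors, 1 / Real.sqrt g
      ≤ ∑ g ∈ d.divisors ∪ d.divisors.image (fun g => 2 * g), 1 / Real.sqrt ((g : ℕ) : ℝ) :=
        Finset.sum_le_sum_of_subset_of_nonneg hsub fun g _ _ => hnn g
    _ ≤ ∑ g ∈ d.divisors, 1 / Real.sqrt g +
        ∑ g ∈ d.divisors.image (fun g => 2 * g), 1 / Real.sqrt ((g : ℕ) : ℝ) := by
        rw [← Finset.sum_union_inter]
        exact le_add_of_nonneg_right (Finset.sum_nonneg fun g _ => hnn g)
    _ ≤ ∑ g ∈ d.divisors, 1 / Real.sqrt g + ∑ g ∈ d.divisors, 1 / Real.sqrt ((g : ℕ) : ℝ) := by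
        refine add_le_add le_rfl ?_
        rw [Finset.sum_image fun x _ y _ h => Nat.eq_of_mul_eq_mul_left two_pos h]
        refine Finset.sum_le_sum fun g hg => ?_
        have hg0 : 0 < g := Nat.pos_of_mem_divisors hg
        have hg0' : (0 : ℝ) < g := by exact_mod_cast hg0
        refine one_div_le_one_div_of_le (Real.sqrt_pos.mpr hg0') (Real.sqrt_le_sqrt ?_)
        push_cast
        linarith
    _ = _ := by ring

theorem js_sq {e : ℤ} (he : e = 1 ∨ e = -1 ∨ e = 2 ∨ e = -2) {d u : ℕ} (hu : Odd u) :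
    js (e * (d : ℤ)) (u ^ 2) = if u.Coprime (2 * d) then 1 else 0 := by
  have hu0 : u ≠ 0 := by rintro rfl; exact absurd hu (by decide)
  have hu2 : u.Coprime 2 := Nat.coprime_two_right.mpr hu
  have : NeZero u := ⟨hu0⟩
  have heu : IsCoprime e (u : ℤ) := by
    have h2 : IsCoprime (2 : ℤ) (u : ℤ) := by
      have := Nat.isCoprime_iff_coprime.mpr hu2.symm
      exact_mod_cast this
    rcases he with rfl | rfl | rfl | rfl
    · exact isCoprime_one_left
    · exact isCoprime_one_left.neg_left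
    · exact h2
    · exact h2.neg_left
  unfold js
  rw [jacobiSym.pow_right]
  by_cases h : u.Coprime d
  · have hc : u.Coprime (2 * d) := Nat.Coprime.mul_right hu2 h
    have hg : (e * (d : ℤ)).gcd (u : ℤ) = 1 :=
      Int.isCoprime_iff_gcd_eq_one.mp (IsCoprime.mul_left heu (Nat.isCoprime_iff_coprime.mpr h.symm))
    rw [if_pos hc, jacobiSym.sq_one hg]
    simp
  · have hc : ¬ u.Coprime (2 * d) := fun hh => h (Nat.Coprime.coprime_mul_left_right hh)
    have hg : (e * (d : ℤ)).gcd (u : ℤ) ≠ 1 := by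
      intro hh
      have := (Int.isCoprime_iff_gcd_eq_one.mpr hh).of_mul_left_right
      exact h (Nat.isCoprime_iff_coprime.mp this).symm
    rw [if_neg hc, jacobiSym.eq_zero_iff_not_coprime.mpr hg]
    simp

theorem ES_eq {p : Par} (hp : p.ok) {d : ℕ} (z : ℝ) (N : ℕ) :
    Q122.FM.ES p N d z = ∑ i ∈ range N, (p.η / Real.sqrt 2) ^ i *
      ∑ u ∈ range (N.sqrt + 1), cc (2 * d) u * IG p.a ((u : ℝ) ^ 4 * ((4 : ℝ) ^ i * z)) := by
  unfold Q122.FM.ES
  refine Finset.sum_congr rfl fun i _ => ?_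
  have h1 : (Icc 1 N).filter (fun n => Odd n ∧ IsSquare n) =
      ((range (N.sqrt + 1)).filter (fun u => Odd u)).image (fun u => u ^ 2) := by
    ext n
    simp only [Finset.mem_filter, Finset.mem_Icc, Finset.mem_image, Finset.mem_range]
    constructor
    · rintro ⟨⟨h1, h2⟩, h3, r, rfl⟩
      refine ⟨r, ⟨Nat.lt_succ_of_le (Nat.le_sqrt.mpr h2), (Nat.odd_mul.mp h3).1⟩, by ring⟩
    · rintro ⟨u, ⟨h1, h2⟩, rfl⟩
      have hu0 : 0 < u := h2.pos
      refine ⟨⟨Nat.succ_le_of_lt (by positivity), ?_⟩, h2.pow, u, by ring⟩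
      have := Nat.le_sqrt.mp (Nat.le_of_lt_succ h1)
      nlinarith
  rw [h1, Finset.sum_image fun x _ y _ h => by
    exact Nat.pow_left_injective (two_ne_zero) h, Finset.mul_sum]
  have h2 : ∑ u ∈ (range (N.sqrt + 1)).filter (fun u => Odd u), (p.η / Real.sqrt 2) ^ i *
        (cc (2 * d) u * IG p.a ((u : ℝ) ^ 4 * ((4 : ℝ) ^ i * z))) =
      ∑ u ∈ range (N.sqrt + 1), (p.η / Real.sqrt 2) ^ i *
        (cc (2 * d) u * IG p.a ((u : ℝ) ^ 4 * ((4 : ℝ) ^ i * z))) := by
    refine Finset.sum_filter_of_ne fun u _ h => ?_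
    by_contra hodd
    apply h
    have : cc (2 * d) u = 0 := by
      unfold cc
      rw [if_neg]
      intro hc
      have h2 := Nat.Coprime.coprime_mul_right_right hc
      exact hodd (Nat.coprime_two_right.mp h2)
    rw [this]
    ring
  rw [← h2]
  refine Finset.sum_congr rfl fun u hu => ?_
  have huo := (Finset.mem_filter.mp hu).2
  have hu0 : (0 : ℝ) < u := by exact_mod_cast huo.pos
  rw [js_sq hp.1 huo]
  have hs : Real.sqrt ((2 : ℝ) ^ i * ((u ^ 2 : ℕ) : ℝ)) = Real.sqrt 2 ^ i * u := by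
    rw [Real.sqrt_mul (by positivity)]
    push_cast
    rw [Real.sqrt_sq hu0.le]
    congr 1
    rw [Real.sqrt_eq_iff_mul_self_eq (by positivity) (by positivity), ← mul_pow,
      Real.mul_self_sqrt (by norm_num)]
  have hz : ((2 : ℝ) ^ i * ((u ^ 2 : ℕ) : ℝ)) ^ 2 * z = (u : ℝ) ^ 4 * ((4 : ℝ) ^ i * z) := by
    push_cast
    have : (4 : ℝ) ^ i = (2 ^ i) ^ 2 := by
      rw [← pow_mul, mul_comm, pow_mul]; norm_num
    rw [this]
    ring
  rw [hs, hz]
  unfold cc
  split_ifs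
  · rw [div_pow]
    field_simp
  · simp

theorem Lam_two {d : ℕ} (hd : Odd d) : Lam (2 * d) = Real.log 2 + Lam d := by
  have hd0 : d ≠ 0 := by rintro rfl; exact absurd hd (by decide)
  have h2 : (2 * d).primeFactors = insert 2 d.primeFactors := by
    rw [Nat.primeFactors_mul (by norm_num) hd0, Nat.prime_two.primeFactors]
    rfl
  unfold Lam
  rw [h2, Finset.sum_insert]
  · norm_num
  · intro h
    exact (Nat.not_even_iff_odd.mpr hd) (even_iff_two_dvd.mpr (Nat.dvd_of_mem_primeFactors h))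

theorem t_SQ (sqh : S_SQH) (lmi : S_LMI) : S_SQ := by
  obtain ⟨C, hC, h1⟩ := sqh
  set K : ℕ → ℝ := fun a => ∫ t in Set.Ioi (0 : ℝ), t ^ ((a : ℝ) / 2 - 3 / 4 - 1 / 8) *
    Real.exp (-(Real.pi * t)) with hK
  have hK0 : ∀ a, 0 ≤ K a := fun a => setIntegral_nonneg measurableSet_Ioi fun t ht =>
    mul_nonneg (Real.rpow_nonneg (le_of_lt ht) _) (Real.exp_pos _).le
  set ρ : ℝ := (4 : ℝ) ^ (1 / 8 : ℝ) / Real.sqrt 2 with hρ
  have hρ0 : 0 < ρ := by positivity
  have hρ1 : ρ < 1 := by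
    rw [hρ, div_lt_one (by positivity), Real.sqrt_eq_rpow]
    have : (4 : ℝ) ^ (1 / 8 : ℝ) = 2 ^ (1 / 4 : ℝ) := by
      rw [show (4 : ℝ) = 2 ^ (2 : ℝ) by norm_num, ← Real.rpow_mul (by norm_num)]
      norm_num
    rw [this]
    exact Real.rpow_lt_rpow_of_exponent_lt (by norm_num) (by norm_num)
  refine ⟨C * 2 * (K 0 + K 1) / (1 - ρ) + 1, ?_, fun p hp d z hd hz hz1 => ?_⟩
  · have := hK0 0
    have := hK0 1
    have : 0 < 1 - ρ := by linarith
    positivity
  have hd0 : d ≠ 0 := by rintro rfl; exact absurd hd (by decide)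
  have hd0' : (0 : ℝ) < d := by positivity
  have hs2 : (0 : ℝ) < Real.sqrt 2 := by positivity
  have hη : |p.η| ≤ 1 := by
    rcases hp.2.2.2 with h | h | h <;> rw [h] <;> norm_num
  set θ : ℝ := p.η / Real.sqrt 2 with hθ
  have hθ1 : |θ| ≤ 1 / Real.sqrt 2 := by
    rw [hθ, abs_div, abs_of_pos hs2]
    exact div_le_div_of_nonneg_right hη hs2.le
  have hs21 : 1 / Real.sqrt 2 < 1 := by
    rw [div_lt_one hs2]
    exact Real.lt_sqrt_of_sq_lt (by norm_num)
  have hθn : ‖θ‖ < 1 := by rw [Real.norm_eq_abs]; linarith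
  -- the inner sums
  set G : ℕ → ℝ := fun i => ∫ t in Set.Ioi (0 : ℝ), ff p.a t *
    Hm (2 * d) ((t / ((4 : ℝ) ^ i * z)) ^ (1 / 4 : ℝ)) with hG
  have hGs : ∀ i, HasSum (fun u : ℕ => cc (2 * d) u * IG p.a ((u : ℝ) ^ 4 * ((4 : ℝ) ^ i * z))) (G i) :=
    fun i => sq_one p.a (2 * d) (by positivity)
  have hnn : ∀ (i u : ℕ), 0 ≤ cc (2 * d) u * IG p.a ((u : ℝ) ^ 4 * ((4 : ℝ) ^ i * z)) := fun i u =>
    mul_nonneg (cc_nonneg _ _) (IG_nonneg _ (by positivity))
  have hG0 : ∀ i, 0 ≤ G i := fun i => (hGs i).nonneg (hnn i)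
  have hA0 : ∀ (i U : ℕ), ∑ u ∈ range U, cc (2 * d) u * IG p.a ((u : ℝ) ^ 4 * ((4 : ℝ) ^ i * z)) ≤
      G 0 := by
    intro i U
    refine le_trans (Finset.sum_le_sum fun u _ => ?_)
      (sum_le_hasSum (range U) (fun u _ => hnn 0 u) (hGs 0))
    refine mul_le_mul_of_nonneg_left (IG_anti _ (by positivity) ?_) (cc_nonneg _ _)
    refine mul_le_mul_of_nonneg_left ?_ (by positivity)
    refine mul_le_mul_of_nonneg_right ?_ hz.le
    rw [pow_zero]
    exact one_le_pow₀ (by norm_num)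
  have hGle : ∀ i, G i ≤ G 0 := fun i =>
    le_of_tendsto' (hGs i).tendsto_sum_nat fun U => hA0 i U
  have hgeo : Summable fun i : ℕ => (1 / Real.sqrt 2) ^ i * G 0 :=
    (summable_geometric_of_lt_one (by positivity) hs21).mul_right _
  -- the limit
  refine ⟨∑' i, θ ^ i * G i, ?_, ?_⟩
  · have ht := tendsto_tsum_of_dominated_convergence (𝓕 := atTop)
      (f := fun (N i : ℕ) => if i < N then θ ^ i * ∑ u ∈ range (N.sqrt + 1),
        cc (2 * d) u * IG p.a ((u : ℝ) ^ 4 * ((4 : ℝ) ^ i * z)) else 0)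
      (g := fun i => θ ^ i * G i) hgeo ?_ ?_
    · refine ht.congr fun N => ?_
      rw [ES_eq hp z N, tsum_eq_sum (s := range N)]
      · exact Finset.sum_congr rfl fun i hi => if_pos (Finset.mem_range.mp hi)
      · intro i hi
        exact if_neg fun h => hi (Finset.mem_range.mpr h)
    · intro i
      have h2 : Tendsto (fun N : ℕ => N.sqrt + 1) atTop atTop := by
        refine tendsto_atTop_mono (fun N => Nat.le_succ _) ?_
        refine tendsto_atTop.mpr fun b => ?_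
        filter_upwards [eventually_ge_atTop (b * b)] with N hN
        exact Nat.le_sqrt.mpr hN
      have h3 := ((hGs i).tendsto_sum_nat.comp h2).const_mul (θ ^ i)
      refine h3.congr' ?_
      filter_upwards [eventually_gt_atTop i] with N hN
      rw [if_pos hN]
      rfl
    · refine Eventually.of_forall fun N i => ?_
      by_cases h : i < N
      · rw [if_pos h, norm_mul, norm_pow, Real.norm_eq_abs,
          Real.norm_of_nonneg (Finset.sum_nonneg fun u _ => hnn i u)]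
        exact mul_le_mul (pow_le_pow_left₀ (abs_nonneg _) hθ1 i) (hA0 i _)
          (Finset.sum_nonneg fun u _ => hnn i u) (by positivity)
      · rw [if_neg h, norm_zero]
        exact mul_nonneg (by positivity) (hG0 0)
  · -- the error
    set σ : ℝ := ∑ g ∈ d.divisors, 1 / Real.sqrt g with hσ
    have hσ0 : 0 ≤ σ := Finset.sum_nonneg fun g _ => by positivity
    set X : ℝ := (Real.log (1 / z) + lam p.a) / 4 + Real.eulerMascheroniConstant + Real.log 2 +
      Lam d with hX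
    set g0 : ℝ := gm (1 / 2 + p.a) / 2 * ((d.totient : ℝ) / d) with hg0
    have hErr : ∀ i, |G i - g0 * (X - Real.log 2 / 2 * i)| ≤
        C * 2 * (K 0 + K 1) * σ * z ^ (1 / 8 : ℝ) * ((4 : ℝ) ^ (1 / 8 : ℝ)) ^ i := by
      intro i
      have h := sq_err lmi p.a hp.2.2.1 (2 * d) (w := (4 : ℝ) ^ i * z) (by positivity)
        (fun V hV => h1 (2 * d) V (by omega) hV)
      have e1 : (((2 * d).totient : ℝ)) / ((2 * d : ℕ) : ℝ) = (d.totient : ℝ) / d / 2 := by
        rw [Nat.totient_two_mul_of_odd hd]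
        push_cast
        field_simp
      have e2 : Real.log (1 / ((4 : ℝ) ^ i * z)) = Real.log (1 / z) - 2 * Real.log 2 * i := by
        rw [one_div, one_div, Real.log_inv, Real.log_inv, Real.log_mul (by positivity) hz.ne',
          Real.log_pow, show (4 : ℝ) = 2 ^ 2 by norm_num, Real.log_pow]
        push_cast
        ring
      rw [e1, e2, Lam_two hd] at h
      have e3 : gm (1 / 2 + ↑p.a) * ((d.totient : ℝ) / d / 2) *
          ((lam p.a + (Real.log (1 / z) - 2 * Real.log 2 * i)) / 4 +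
            Real.eulerMascheroniConstant + (Real.log 2 + Lam d)) =
          g0 * (X - Real.log 2 / 2 * i) := by
        rw [hg0, hX]; ring
      rw [e3] at h
      refine h.trans ?_
      have e4 : ((4 : ℝ) ^ i * z) ^ (1 / 8 : ℝ) = ((4 : ℝ) ^ (1 / 8 : ℝ)) ^ i * z ^ (1 / 8 : ℝ) := by
        rw [Real.mul_rpow (by positivity) hz.le, ← Real.rpow_natCast 4 i, ← Real.rpow_mul (by norm_num),
          mul_comm (i : ℝ), Real.rpow_mul (by norm_num), Real.rpow_natCast]
      rw [e4]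
      have e5 : ∑ g ∈ (2 * d).divisors, 1 / Real.sqrt g ≤ 2 * σ := div_two hd
      have e6 : (∫ t in Set.Ioi (0 : ℝ), t ^ ((p.a : ℝ) / 2 - 3 / 4 - 1 / 8) *
          Real.exp (-(Real.pi * t))) ≤ K 0 + K 1 := by
        rcases hp.2.2.1 with h | h
        · rw [h]
          exact le_add_of_nonneg_right (hK0 1)
        · rw [h]
          exact le_add_of_nonneg_left (hK0 0)
      have e7 : 0 ≤ ∫ t in Set.Ioi (0 : ℝ), t ^ ((p.a : ℝ) / 2 - 3 / 4 - 1 / 8) *
          Real.exp (-(Real.pi * t)) := hK0 p.a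
      calc C * (((4 : ℝ) ^ (1 / 8 : ℝ)) ^ i * z ^ (1 / 8 : ℝ)) *
            (∑ g ∈ (2 * d).divisors, 1 / Real.sqrt g) *
            ∫ t in Set.Ioi (0 : ℝ), t ^ ((p.a : ℝ) / 2 - 3 / 4 - 1 / 8) * Real.exp (-(Real.pi * t))
          ≤ C * (((4 : ℝ) ^ (1 / 8 : ℝ)) ^ i * z ^ (1 / 8 : ℝ)) * (2 * σ) * (K 0 + K 1) := by
            refine mul_le_mul (mul_le_mul_of_nonneg_left e5 (by positivity)) e6 e7 (by positivity)
        _ = _ := by ring
    -- the main term
    have hM : HasSum (fun i : ℕ => θ ^ i * (g0 * (X - Real.log 2 / 2 * i))) (MQ p d z) := by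
      have a1 := (hasSum_geometric_of_norm_lt_one hθn).mul_left (g0 * X)
      have a2 := (hasSum_coe_mul_geometric_of_norm_lt_one hθn).mul_left (g0 * (Real.log 2 / 2))
      have a3 := a1.sub a2
      have e1 : g0 * X * (1 - θ)⁻¹ - g0 * (Real.log 2 / 2) * (θ / (1 - θ) ^ 2) = MQ p d z := by
        unfold MQ S0 S1
        rw [← hθ, hg0, hX, one_div]
        ring
      rw [e1] at a3
      have e2 : (fun i : ℕ => g0 * X * θ ^ i - g0 * (Real.log 2 / 2) * (i * θ ^ i)) =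
          fun i : ℕ => θ ^ i * (g0 * (X - Real.log 2 / 2 * i)) := by
        funext i
        ring
      rw [e2] at a3
      exact a3
    have hGsum : Summable fun i => θ ^ i * G i := by
      refine Summable.of_norm_bounded hgeo fun i => ?_
      rw [norm_mul, norm_pow, Real.norm_eq_abs, Real.norm_of_nonneg (hG0 i)]
      exact mul_le_mul (pow_le_pow_left₀ (abs_nonneg _) hθ1 i) (hGle i) (hG0 i) (by positivity)
    have hD : (∑' i, θ ^ i * G i) - MQ p d z =
        ∑' i : ℕ, (θ ^ i * G i - θ ^ i * (g0 * (X - Real.log 2 / 2 * i))) := by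
      rw [hGsum.tsum_sub hM.summable, hM.tsum_eq]
    have hB : HasSum (fun i : ℕ => C * 2 * (K 0 + K 1) * σ * z ^ (1 / 8 : ℝ) * ρ ^ i)
        (C * 2 * (K 0 + K 1) * σ * z ^ (1 / 8 : ℝ) * (1 - ρ)⁻¹) :=
      (hasSum_geometric_of_lt_one hρ0.le hρ1).mul_left _
    rw [hD, ← Real.norm_eq_abs]
    refine (tsum_of_norm_bounded hB fun i => ?_).trans ?_
    · rw [← mul_sub, norm_mul, norm_pow, Real.norm_eq_abs, Real.norm_eq_abs]
      refine (mul_le_mul (pow_le_pow_left₀ (abs_nonneg _) hθ1 i) (hErr i) (abs_nonneg _)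
        (by positivity)).trans (le_of_eq ?_)
      rw [hρ, div_pow, div_pow, one_pow]
      field_simp
    · have hρ2 : 0 < 1 - ρ := by linarith
      have hz8 : 0 ≤ z ^ (1 / 8 : ℝ) := Real.rpow_nonneg hz.le _
      have : C * 2 * (K 0 + K 1) * σ * z ^ (1 / 8 : ℝ) * (1 - ρ)⁻¹ =
          (C * 2 * (K 0 + K 1) / (1 - ρ)) * z ^ (1 / 8 : ℝ) * σ := by
        field_simp
      rw [this]
      refine mul_le_mul_of_nonneg_right (mul_le_mul_of_nonneg_right ?_ hz8) hσ0
      linarith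

end

end Pool.Agent.Q153.FM.Sq
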