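import Pool.Agent.Q122.FM.Stm
import Pool.Agent.H423R2.RGL.CC1
import Pool.Agent.H423R2.RGL.CC5

set_option autoImplicit false

/-! Project FM (helper122), job FDD (helper153). -/

namespace Pool.Agent.Q153.FM.Fdd

open Finset Filter Topology Pool.Agent.H306R2.RZ Pool.Agent.H306R2.RG
open Pool.Agent.Q122.FM

noncomputable section

theorem kron_cf (φ : FD) (d : ℕ) (D : ℤ) (h1 : ((kr2 D : ℤ) : ℝ) = φ.η)
    (h2 : ∀ o : ℕ, Odd o → jacobiSym D o = jacobiSym (φ.e * (d : ℤ)) o) (k : ℕ) (hk : 1 ≤ k) :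
    ((kron D k : ℤ) : ℝ) = cf φ d k := by
  have ho : Odd (k / 2 ^ (k.factorization 2)) := by
    rw [← Nat.not_even_iff_odd, even_iff_two_dvd]
    exact Nat.not_dvd_ordCompl Nat.prime_two (by omega)
  unfold kron cf jo js
  rw [if_pos ho, h2 _ ho]
  push_cast
  rw [h1]

theorem tends (lim : S_LIM) (φ : FD) (hφ : Fam φ) (d : ℕ) (hd : φ.A d) (hs : Squarefree d) (D : ℤ)
    (h : ∀ k : ℕ, 1 ≤ k → ((kron D k : ℤ) : ℝ) = cf φ d k) :
    Tendsto (fun N : ℕ => ∑ n ∈ Icc 1 N, (kron D n : ℝ) / Real.sqrt n) atTop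
      (𝓝 (LLg φ d (1 / 2))) := by
  obtain ⟨hd0, χ, -, -, hχ1, hχ, -⟩ := Pool.Agent.H306R2.RG.LnkC.CC1 φ hφ d hd hs
  have hr : 1 ≤ φ.r := by
    obtain ⟨ε, _, h⟩ := hφ
    rcases h with rfl | rfl | rfl | rfl <;> simp [F8, F4, F1]
  have h0 : NeZero (φ.r * d) := ⟨by positivity⟩
  have h1 := lim (φ.r * d) χ hχ1 (1 / 2) (by norm_num)
  rw [Pool.Agent.H306R2.RG.LnkC.CC5 φ hφ d hd hs h0 χ hχ1 hχ (1 / 2) (by norm_num)] at h1
  have h2 := (Complex.continuous_re.tendsto _).comp h1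
  rw [Complex.ofReal_re] at h2
  refine h2.congr fun N => ?_
  simp only [Function.comp]
  rw [Complex.re_sum]
  refine Finset.sum_congr rfl fun n hn => ?_
  have hn1 : 1 ≤ n := (Finset.mem_Icc.mp hn).1
  rw [hχ n (by omega), ← Complex.ofReal_mul, Complex.ofReal_re, h n hn1,
    Real.rpow_neg (Nat.cast_nonneg n), ← Real.sqrt_eq_rpow, div_eq_mul_inv]

theorem jac_four (m : ℤ) {o : ℕ} (ho : Odd o) : jacobiSym (4 * m) o = jacobiSym m o := by
  rw [jacobiSym.mul_left]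
  have h : jacobiSym 4 o = 1 := by
    have h2 : (2 : ℤ).gcd o = 1 := by
      have := (Nat.coprime_two_left.mpr ho)
      rw [Int.gcd_eq_natAbs]
      simpa using this
    have := jacobiSym.sq_one' h2
    norm_num at this
    exact this
  rw [h, one_mul]

theorem kr2_four (m : ℤ) : kr2 (4 * m) = 0 := by
  unfold kr2
  rw [if_neg (by omega), if_neg (by omega)]

theorem fam8 {ε : ℤ} (hε : ε = 1 ∨ ε = -1) : Fam (F8 ε) := ⟨ε, hε, Or.inl rfl⟩
theorem fam4 {ε : ℤ} (hε : ε = 1 ∨ ε = -1) : Fam (F4 ε) := ⟨ε, hε, Or.inr (Or.inl rfl)⟩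
theorem fam1 {ε : ℤ} (hε : ε = 1 ∨ ε = -1) : Fam (F1 ε 1) := ⟨ε, hε, Or.inr (Or.inr (Or.inl rfl))⟩
theorem fam5 {ε : ℤ} (hε : ε = 1 ∨ ε = -1) : Fam (F1 ε 5) := ⟨ε, hε, Or.inr (Or.inr (Or.inr rfl))⟩

theorem T8 (lim : S_LIM) {ε : ℤ} (hε : ε = 1 ∨ ε = -1) {d : ℕ} (hd : Odd d) (hs : Squarefree d) :
    Tendsto (fun N : ℕ => ∑ n ∈ Icc 1 N, (kron (ε * ((8 * d : ℕ) : ℤ)) n : ℝ) / Real.sqrt n) atTop
      (𝓝 (LLg (F8 ε) d (1 / 2))) := by
  refine tends lim (F8 ε) (fam8 hε) d hd hs _ (kron_cf _ _ _ ?_ ?_)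
  · rw [show ε * ((8 * d : ℕ) : ℤ) = 4 * (2 * ε * d) by push_cast; ring, kr2_four]
    simp [F8]
  · intro o ho
    rw [show ε * ((8 * d : ℕ) : ℤ) = 4 * (2 * ε * d) by push_cast; ring, jac_four _ ho]
    rfl

theorem T4 (lim : S_LIM) {ε : ℤ} (hε : ε = 1 ∨ ε = -1) {d : ℕ} (hd : (ε * (d : ℤ)) % 4 = 3)
    (hs : Squarefree d) :
    Tendsto (fun N : ℕ => ∑ n ∈ Icc 1 N, (kron (ε * ((4 * d : ℕ) : ℤ)) n : ℝ) / Real.sqrt n) atTop
      (𝓝 (LLg (F4 ε) d (1 / 2))) := by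
  refine tends lim (F4 ε) (fam4 hε) d hd hs _ (kron_cf _ _ _ ?_ ?_)
  · rw [show ε * ((4 * d : ℕ) : ℤ) = 4 * (ε * d) by push_cast; ring, kr2_four]
    simp [F4]
  · intro o ho
    rw [show ε * ((4 * d : ℕ) : ℤ) = 4 * (ε * d) by push_cast; ring, jac_four _ ho]
    rfl

theorem T1 (lim : S_LIM) {ε : ℤ} (hε : ε = 1 ∨ ε = -1) {d : ℕ} (hd : (ε * (d : ℤ)) % 8 = 1)
    (hsq : ¬ IsSquare (ε * (d : ℤ))) (hs : Squarefree d) :
    Tendsto (fun N : ℕ => ∑ n ∈ Icc 1 N, (kron (ε * (d : ℤ)) n : ℝ) / Real.sqrt n) atTop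
      (𝓝 (LLg (F1 ε 1) d (1 / 2))) := by
  refine tends lim (F1 ε 1) (fam1 hε) d ⟨hd, hsq⟩ hs _ (kron_cf _ _ _ ?_ ?_)
  · unfold kr2
    rw [if_pos hd]
    simp [F1]
  · intro o ho
    rfl

theorem T5 (lim : S_LIM) {ε : ℤ} (hε : ε = 1 ∨ ε = -1) {d : ℕ} (hd : (ε * (d : ℤ)) % 8 = 5)
    (hsq : ¬ IsSquare (ε * (d : ℤ))) (hs : Squarefree d) :
    Tendsto (fun N : ℕ => ∑ n ∈ Icc 1 N, (kron (ε * (d : ℤ)) n : ℝ) / Real.sqrt n) atTop
      (𝓝 (LLg (F1 ε 5) d (1 / 2))) := by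
  refine tends lim (F1 ε 5) (fam5 hε) d ⟨hd, hsq⟩ hs _ (kron_cf _ _ _ ?_ ?_)
  · unfold kr2
    rw [if_neg (by omega), if_pos hd]
    simp [F1]
  · intro o ho
    rfl

/-- the four cases -/
def C8 (n : ℕ) : Prop := 8 ∣ n ∧ Odd (n / 8) ∧ Squarefree (n / 8)
def C4 (ε : ℤ) (n : ℕ) : Prop := 4 ∣ n ∧ (ε * ((n / 4 : ℕ) : ℤ)) % 4 = 3 ∧ Squarefree (n / 4)
def CF (ε c : ℤ) (n : ℕ) : Prop :=
  ((ε * (n : ℤ)) % 8 = c ∧ ¬ IsSquare (ε * (n : ℤ))) ∧ Squarefree n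

theorem sqf_cast {ε : ℤ} (hε : ε = 1 ∨ ε = -1) (n : ℕ) : Squarefree (ε * (n : ℤ)) ↔ Squarefree n := by
  have h : (ε * (n : ℤ)).natAbs = n := by
    rw [Int.natAbs_mul]
    rcases hε with rfl | rfl <;> simp
  rw [← Int.squarefree_natAbs, h]

theorem not_sq {ε : ℤ} (hε : ε = 1 ∨ ε = -1) {n : ℕ} (hn : 2 ≤ n) (hs : Squarefree n) :
    ¬ IsSquare (ε * (n : ℤ)) := by
  rintro ⟨r, hr⟩
  have h1 : r.natAbs * r.natAbs = n := by
    rw [← Int.natAbs_mul, ← hr, Int.natAbs_mul]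
    rcases hε with rfl | rfl <;> simp
  have h2 := hs r.natAbs (by rw [h1])
  rw [Nat.isUnit_iff] at h2
  rw [h2] at h1
  omega

theorem fund_iff {ε : ℤ} (hε : ε = 1 ∨ ε = -1) {n : ℕ} (hn : 2 ≤ n) :
    IsFund (ε * (n : ℤ)) ↔ C8 n ∨ C4 ε n ∨ CF ε 1 n ∨ CF ε 5 n := by
  constructor
  · rintro (⟨h1, h2⟩ | ⟨m, h1, h2, h3⟩)
    · rw [sqf_cast hε] at h2
      have h3 := not_sq hε hn h2
      have : (ε * (n : ℤ)) % 8 = 1 ∨ (ε * (n : ℤ)) % 8 = 5 := by omega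
      rcases this with h | h
      · exact Or.inr (Or.inr (Or.inl ⟨⟨h, h3⟩, h2⟩))
      · exact Or.inr (Or.inr (Or.inr ⟨⟨h, h3⟩, h2⟩))
    · have h4 : (4 : ℤ) ∣ (n : ℤ) := by
        rcases hε with rfl | rfl <;> omega
      have h4' : 4 ∣ n := by exact_mod_cast h4
      obtain ⟨d, rfl⟩ := h4'
      have hm : m = ε * (d : ℤ) := by
        have : (4 : ℤ) * m = 4 * (ε * d) := by
          rw [← h1]
          push_cast
          ring
        omega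
      rw [hm, sqf_cast hε] at h3
      rw [hm] at h2
      rcases h2 with h2 | h2
      · left
        have h5 : (d : ℤ) % 4 = 2 := by
          rcases hε with rfl | rfl <;> omega
        have h5' : d % 4 = 2 := by omega
        obtain ⟨e, rfl⟩ : 2 ∣ d := by omega
        refine ⟨⟨e, by ring⟩, ?_, ?_⟩
        · rw [show 4 * (2 * e) / 8 = e by omega, Nat.odd_iff]
          omega
        · rw [show 4 * (2 * e) / 8 = e by omega]
          exact h3.squarefree_of_dvd (Dvd.intro_left 2 rfl)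
      · right; left
        refine ⟨⟨d, rfl⟩, ?_, ?_⟩
        · rw [show 4 * d / 4 = d by omega]
          exact h2
        · rw [show 4 * d / 4 = d by omega]
          exact h3
  · rintro (⟨⟨d, rfl⟩, h2, h3⟩ | ⟨⟨d, rfl⟩, h2, h3⟩ | ⟨⟨h1, h2⟩, h3⟩ | ⟨⟨h1, h2⟩, h3⟩)
    · rw [show 8 * d / 8 = d by omega] at h2 h3
      right
      refine ⟨ε * ((2 * d : ℕ) : ℤ), by push_cast; ring, Or.inl ?_, ?_⟩
      · rw [Nat.odd_iff] at h2
        push_cast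
        rcases hε with rfl | rfl <;> omega
      · rw [sqf_cast hε, Nat.squarefree_mul ((Nat.coprime_two_left).mpr h2)]
        exact ⟨Nat.prime_two.squarefree, h3⟩
    · rw [show 4 * d / 4 = d by omega] at h2 h3
      right
      exact ⟨ε * (d : ℤ), by push_cast; ring, Or.inr h2, (sqf_cast hε d).mpr h3⟩
    · left
      exact ⟨by omega, (sqf_cast hε n).mpr h3⟩
    · left
      exact ⟨by omega, (sqf_cast hε n).mpr h3⟩

open Classical in
/-- the values -/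
theorem vals (lim : S_LIM) {ε : ℤ} (hε : ε = 1 ∨ ε = -1) {n : ℕ} (hn : 2 ≤ n)
    (hf : IsFund (ε * (n : ℤ))) :
    Tendsto (fun N : ℕ => ∑ k ∈ Icc 1 N, (kron (ε * (n : ℤ)) k : ℝ) / Real.sqrt k) atTop
      (𝓝 ((if 8 ∣ n ∧ (F8 ε).A (n / 8) ∧ Squarefree (n / 8) then LLg (F8 ε) (n / 8) (1 / 2) else 0) +
      (if 4 ∣ n ∧ (F4 ε).A (n / 4) ∧ Squarefree (n / 4) then LLg (F4 ε) (n / 4) (1 / 2) else 0) +
      (if (F1 ε 1).A n ∧ Squarefree n then LLg (F1 ε 1) n (1 / 2) else 0) +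
      (if (F1 ε 5).A n ∧ Squarefree n then LLg (F1 ε 5) n (1 / 2) else 0))) := by
  have x8 : (8 ∣ n ∧ (F8 ε).A (n / 8) ∧ Squarefree (n / 8)) ↔ C8 n := Iff.rfl
  have x4 : (4 ∣ n ∧ (F4 ε).A (n / 4) ∧ Squarefree (n / 4)) ↔ C4 ε n := Iff.rfl
  have x1 : ((F1 ε 1).A n ∧ Squarefree n) ↔ CF ε 1 n := Iff.rfl
  have x5 : ((F1 ε 5).A n ∧ Squarefree n) ↔ CF ε 5 n := Iff.rfl
  simp only [x8, x4, x1, x5]
  have a8 : C8 n → n % 16 = 8 := by
    rintro ⟨⟨d, rfl⟩, h2, -⟩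
    rw [show 8 * d / 8 = d by omega, Nat.odd_iff] at h2
    omega
  have a4 : C4 ε n → n % 8 = 4 := by
    rintro ⟨⟨d, rfl⟩, h2, -⟩
    rw [show 4 * d / 4 = d by omega] at h2
    rcases hε with rfl | rfl <;> omega
  have a1 : CF ε 1 n → (ε * (n : ℤ)) % 8 = 1 ∧ n % 2 = 1 := by
    rintro ⟨⟨h1, -⟩, -⟩
    refine ⟨h1, ?_⟩
    rcases hε with rfl | rfl <;> omega
  have a5 : CF ε 5 n → (ε * (n : ℤ)) % 8 = 5 ∧ n % 2 = 1 := by
    rintro ⟨⟨h1, -⟩, -⟩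
    refine ⟨h1, ?_⟩
    rcases hε with rfl | rfl <;> omega
  rcases (fund_iff hε hn).mp hf with h | h | h | h
  · rw [if_pos h, if_neg (fun h' => by have := a8 h; have := a4 h'; omega),
      if_neg (fun h' => by have := a8 h; have := (a1 h').2; omega),
      if_neg (fun h' => by have := a8 h; have := (a5 h').2; omega), add_zero, add_zero, add_zero]
    obtain ⟨⟨d, rfl⟩, h2, h3⟩ := h
    rw [show 8 * d / 8 = d by omega] at h2 h3 ⊢
    exact T8 lim hε h2 h3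
  · rw [if_neg (fun h' => by have := a8 h'; have := a4 h; omega), if_pos h,
      if_neg (fun h' => by have := a4 h; have := (a1 h').2; omega),
      if_neg (fun h' => by have := a4 h; have := (a5 h').2; omega), zero_add, add_zero, add_zero]
    obtain ⟨⟨d, rfl⟩, h2, h3⟩ := h
    rw [show 4 * d / 4 = d by omega] at h2 h3 ⊢
    exact T4 lim hε h2 h3
  · rw [if_neg (fun h' => by have := a8 h'; have := (a1 h).2; omega),
      if_neg (fun h' => by have := a4 h'; have := (a1 h).2; omega), if_pos h,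
      if_neg (fun h' => by have := (a1 h).1; have := (a5 h').1; omega), zero_add, zero_add, add_zero]
    exact T1 lim hε h.1.1 h.1.2 h.2
  · rw [if_neg (fun h' => by have := a8 h'; have := (a5 h).2; omega),
      if_neg (fun h' => by have := a4 h'; have := (a5 h).2; omega),
      if_neg (fun h' => by have := (a5 h).1; have := (a1 h').1; omega), if_pos h,
      zero_add, zero_add, zero_add]
    exact T5 lim hε h.1.1 h.1.2 h.2

theorem t_FDD (lim : S_LIM) : S_FDD := by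
  classical
  constructor
  · intro D hD hD1
    have hex : ∃ ε : ℤ, (ε = 1 ∨ ε = -1) ∧ ∃ n : ℕ, 2 ≤ n ∧ D = ε * (n : ℤ) := by
      have h0 : D ≠ 0 := by
        rintro rfl
        rcases hD with ⟨h1, -⟩ | ⟨m, h1, h2, -⟩
        · omega
        · omega
      have h1 : D ≠ -1 := by
        rintro rfl
        rcases hD with ⟨h1, -⟩ | ⟨m, h1, h2, -⟩
        · omega
        · omega
      rcases lt_or_gt_of_ne h0 with h | h
      · exact ⟨-1, Or.inr rfl, D.natAbs, by omega, by omega⟩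
      · exact ⟨1, Or.inl rfl, D.natAbs, by omega, by omega⟩
    obtain ⟨ε, hε, n, hn, rfl⟩ := hex
    have h := vals lim hε hn hD
    have h2 : LHalf (ε * (n : ℤ)) = _ := h.limUnder_eq
    rw [h2]
    exact h
  · intro ε hε n hn
    by_cases hf : IsFund (ε * (n : ℤ))
    · rw [if_pos hf]
      exact (vals lim hε hn hf).limUnder_eq
    · rw [if_neg hf]
      rw [fund_iff hε hn] at hf
      push Not at hf
      obtain ⟨f8, f4, f1, f5⟩ := hf
      have x8 : (8 ∣ n ∧ (F8 ε).A (n / 8) ∧ Squarefree (n / 8)) ↔ C8 n := Iff.rfl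
      have x4 : (4 ∣ n ∧ (F4 ε).A (n / 4) ∧ Squarefree (n / 4)) ↔ C4 ε n := Iff.rfl
      have x1 : ((F1 ε 1).A n ∧ Squarefree n) ↔ CF ε 1 n := Iff.rfl
      have x5 : ((F1 ε 5).A n ∧ Squarefree n) ↔ CF ε 5 n := Iff.rfl
      simp only [x8, x4, x1, x5]
      rw [if_neg f8, if_neg f4, if_neg f1, if_neg f5]
      norm_num

end

end Pool.Agent.Q153.FM.Fdd
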