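import Pool.Agent.Q122.FM.Stm

set_option autoImplicit false

/-! Project FM (helper122), job J1 (helper153). -/

namespace Pool.Agent.Q153.FM

open Finset Filter Topology MeasureTheory Pool.Agent.H306R2.RZ Pool.Agent.H306R2.RG
open Pool.Agent.Q122.FM

noncomputable section

/-- the integral of `w^{-1} e^{-w/8}` -/
theorem int_one {z : ℝ} (hz : 0 < z) (hz1 : z ≤ 1) :
    IntegrableOn (fun w : ℝ => w⁻¹ * Real.exp (-(w / 8))) (Set.Ioi z) ∧
    ∫ w in Set.Ioi z, w⁻¹ * Real.exp (-(w / 8)) ≤ Real.log (1 / z) + 8 := by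
  have hex : IntegrableOn (fun w : ℝ => Real.exp (-(w / 8))) (Set.Ioi z) := by
    have := exp_neg_integrableOn_Ioi z (show (0 : ℝ) < 1 / 8 by norm_num)
    refine this.congr_fun (fun w _ => ?_) measurableSet_Ioi
    simp only
    congr 1
    ring
  have hI : IntegrableOn (fun w : ℝ => w⁻¹ * Real.exp (-(w / 8))) (Set.Ioi z) := by
    refine (hex.const_mul z⁻¹).mono' ?_ ?_
    · refine ContinuousOn.aestronglyMeasurable ?_ measurableSet_Ioi
      intro w hw
      have hw0 : (0 : ℝ) < w := lt_trans hz hw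
      exact ((continuousAt_inv₀ hw0.ne').mul (by fun_prop)).continuousWithinAt
    · rw [ae_restrict_iff' measurableSet_Ioi]
      refine Eventually.of_forall fun w hw => ?_
      have hw0 : (0 : ℝ) < w := lt_trans hz hw
      rw [Real.norm_eq_abs, abs_of_nonneg (by positivity)]
      exact mul_le_mul_of_nonneg_right (inv_anti₀ hz (le_of_lt hw)) (Real.exp_pos _).le
  refine ⟨hI, ?_⟩
  rw [← Set.Ioc_union_Ioi_eq_Ioi hz1, setIntegral_union (Set.Ioc_disjoint_Ioi le_rfl) measurableSet_Ioi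
    (hI.mono_set Set.Ioc_subset_Ioi_self) (hI.mono_set (Set.Ioi_subset_Ioi hz1))]
  refine add_le_add ?_ ?_
  · have h1 : ∫ w in Set.Ioc z 1, w⁻¹ = Real.log (1 / z) := by
      rw [← intervalIntegral.integral_of_le hz1, integral_inv_of_pos hz one_pos]
    rw [← h1]
    have h2 : IntegrableOn (fun w : ℝ => w⁻¹) (Set.Ioc z 1) := by
      refine ContinuousOn.integrableOn_Icc (f := fun w : ℝ => w⁻¹) (a := z) (b := 1) ?_ |>.mono_set
        Set.Ioc_subset_Icc_self
      intro w hw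
      exact (continuousAt_inv₀ (lt_of_lt_of_le hz hw.1).ne').continuousWithinAt
    refine setIntegral_mono_on (hI.mono_set Set.Ioc_subset_Ioi_self) h2 measurableSet_Ioc fun w hw => ?_
    have hw0 : (0 : ℝ) < w := lt_trans hz hw.1
    refine mul_le_of_le_one_right (by positivity) ?_
    rw [Real.exp_le_one_iff]
    linarith
  · have h1 : ∫ w in Set.Ioi (1 : ℝ), Real.exp (-(w / 8)) ≤ 8 := by
      have e : ∀ w : ℝ, Real.exp (-(w / 8)) = Real.exp ((-(1 / 8)) * w) := fun w => by congr 1; ring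
      simp only [e]
      rw [integral_exp_mul_Ioi (by norm_num) 1]
      have : Real.exp ((-(1 / 8)) * 1) ≤ 1 := by
        rw [Real.exp_le_one_iff]; norm_num
      linarith
    refine le_trans ?_ h1
    refine setIntegral_mono_on (hI.mono_set (Set.Ioi_subset_Ioi hz1))
      (hex.mono_set (Set.Ioi_subset_Ioi hz1)) measurableSet_Ioi fun w hw => ?_
    refine mul_le_of_le_one_left (Real.exp_pos _).le ?_
    exact inv_le_one_of_one_le₀ (le_of_lt hw)

/-- the integral of `w^{-3/2}` -/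
theorem int_two {z : ℝ} (hz : 0 < z) :
    IntegrableOn (fun w : ℝ => w ^ (-(3 / 2) : ℝ)) (Set.Ioi z) ∧
    ∫ w in Set.Ioi z, w ^ (-(3 / 2) : ℝ) = 2 * z ^ (-(1 / 2) : ℝ) := by
  refine ⟨integrableOn_Ioi_rpow_of_lt (by norm_num) hz, ?_⟩
  rw [integral_Ioi_rpow_of_lt (by norm_num) hz]
  norm_num
  ring

theorem N1_smul (e : ℤ) (k : ℕ → ℝ) (N d : ℕ) {C : ℝ} (hC : C ≠ 0) :
    N1 e k N d = C * N1 e (fun n => k n / C) N d := by
  unfold N1
  rw [Finset.mul_sum]
  refine Finset.sum_congr rfl fun n _ => ?_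
  field_simp

theorem t_J1 (ls1 : S_LS1) (ker : S_KER) : S_J1 := by
  obtain ⟨C1, hC1, h1⟩ := ls1
  obtain ⟨⟨C0, hC0, k0⟩, k1⟩ := ker
  have hC00 : 0 < C0 := by linarith
  refine ⟨C0 * Real.sqrt C1 * 2 * 12, by positivity, fun p hp c hc8 hco a ha Y h N hY hh => ?_⟩
  have hr1 : 1 ≤ p.r := hp.2.1.1
  have hr8 : p.r ≤ 8 := hp.2.1.2
  have hr1' : (1 : ℝ) ≤ p.r := by exact_mod_cast hr1
  have hr8' : (p.r : ℝ) ≤ 8 := by exact_mod_cast hr8
  have hY3 : (3 : ℝ) ≤ Y := by exact_mod_cast hY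
  have hY0 : (0 : ℝ) < Y := by linarith
  have ha0 : 0 < a := Nat.pos_of_ne_zero (by rintro rfl; exact absurd ha (by decide))
  have ha0' : (0 : ℝ) < a := by exact_mod_cast ha0
  have hh0 : (0 : ℝ) ≤ h := Nat.cast_nonneg h
  -- logarithms
  have hlog3 : 1 ≤ Real.log Y := by
    have h3 : Real.log 3 ≤ Real.log Y := Real.log_le_log (by norm_num) hY3
    have h4 : 1 ≤ Real.log 3 := by
      rw [Real.le_log_iff_exp_le (by norm_num)]
      have := Real.exp_one_lt_d9
      linarith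
    linarith
  set D : ℕ → Finset ℕ := fun y => (Ioc y (y + h)).filter (fun d => a ^ 2 ∣ d ∧ d % 8 = c) with hD
  set S : ℕ → ℝ → ℝ := fun y w => ∑ d ∈ D y, N1 p.e (kw p N w) N d with hS
  have fI : ∀ z : ℝ, 0 < z → ∀ y, IntegrableOn (fun w : ℝ => w ^ (-(3 / 4) : ℝ) * S y w) (Set.Ioi z) := by
    intro z hz y
    simp only [hS, Finset.mul_sum]
    exact integrable_finsetSum _ fun d _ => (k1 p hp N d z hz).1
  have fE : ∀ z : ℝ, 0 < z → ∀ y, ∑ d ∈ D y, EN p N d z =
      ∫ w in Set.Ioi z, w ^ (-(3 / 4) : ℝ) * S y w := by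
    intro z hz y
    simp only [hS, Finset.mul_sum]
    rw [integral_finsetSum _ fun d _ => (k1 p hp N d z hz).1]
    exact Finset.sum_congr rfl fun d _ => (k1 p hp N d z hz).2
  set z0 : ℝ := 1 / (p.r * Y) with hz0
  have hz0p : 0 < z0 := by positivity
  have hz01 : z0 ≤ 1 := by
    rw [hz0, div_le_one (by positivity)]
    nlinarith
  -- step A
  have hA : ∀ y ∈ range Y, |∑ d ∈ D y, EN p N d (1 / (p.r * ((y : ℝ) + 1)))| ≤
      ∫ w in Set.Ioi z0, w ^ (-(3 / 4) : ℝ) * |S y w| := by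
    intro y hy
    have hyY : (y : ℝ) + 1 ≤ Y := by
      have := Finset.mem_range.mp hy
      exact_mod_cast this
    have hzy : 0 < 1 / (p.r * ((y : ℝ) + 1)) := by positivity
    have hzz : z0 ≤ 1 / (p.r * ((y : ℝ) + 1)) :=
      one_div_le_one_div_of_le (by positivity) (mul_le_mul_of_nonneg_left hyY (by positivity))
    rw [fE _ hzy]
    have habs : IntegrableOn (fun w : ℝ => w ^ (-(3 / 4) : ℝ) * |S y w|) (Set.Ioi z0) := by
      refine (fI z0 hz0p y).abs.congr ?_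
      rw [EventuallyEq, ae_restrict_iff' measurableSet_Ioi]
      refine Eventually.of_forall fun w hw => ?_
      have hw0 : (0 : ℝ) < w := lt_trans hz0p hw
      rw [abs_mul, abs_of_nonneg (Real.rpow_nonneg hw0.le _)]
    calc |∫ w in Set.Ioi (1 / (p.r * ((y : ℝ) + 1))), w ^ (-(3 / 4) : ℝ) * S y w|
        ≤ ∫ w in Set.Ioi (1 / (p.r * ((y : ℝ) + 1))), |w ^ (-(3 / 4) : ℝ) * S y w| :=
          abs_integral_le_integral_abs
      _ = ∫ w in Set.Ioi (1 / (p.r * ((y : ℝ) + 1))), w ^ (-(3 / 4) : ℝ) * |S y w| := by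
          refine setIntegral_congr_fun measurableSet_Ioi fun w hw => ?_
          have hw0 : (0 : ℝ) < w := lt_trans hzy hw
          rw [abs_mul, abs_of_nonneg (Real.rpow_nonneg hw0.le _)]
      _ ≤ ∫ w in Set.Ioi z0, w ^ (-(3 / 4) : ℝ) * |S y w| := by
          refine setIntegral_mono_set habs ?_ (Set.Ioi_subset_Ioi hzz).eventuallyLE
          rw [EventuallyLE, ae_restrict_iff' measurableSet_Ioi]
          refine Eventually.of_forall fun w hw => ?_
          have hw0 : (0 : ℝ) < w := lt_trans hz0p hw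
          exact mul_nonneg (Real.rpow_nonneg hw0.le _) (abs_nonneg _)
  have habs : ∀ y, IntegrableOn (fun w : ℝ => w ^ (-(3 / 4) : ℝ) * |S y w|) (Set.Ioi z0) := by
    intro y
    refine (fI z0 hz0p y).abs.congr ?_
    rw [EventuallyEq, ae_restrict_iff' measurableSet_Ioi]
    refine Eventually.of_forall fun w hw => ?_
    have hw0 : (0 : ℝ) < w := lt_trans hz0p hw
    rw [abs_mul, abs_of_nonneg (Real.rpow_nonneg hw0.le _)]
  -- step C: the pointwise bound
  set K : ℝ := Real.sqrt Y * (C0 * (Real.sqrt C1 * Real.sqrt h) * (2 * Real.sqrt (Real.log Y))) with hK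
  have hK0 : 0 ≤ K := by positivity
  have hC : ∀ w ∈ Set.Ioi z0, w ^ (-(3 / 4) : ℝ) * ∑ y ∈ range Y, |S y w| ≤
      K * (Real.sqrt Y / a * (w⁻¹ * Real.exp (-(w / 8))) + w ^ (-(3 / 2) : ℝ)) := by
    intro w hw
    have hw0 : (0 : ℝ) < w := lt_trans hz0p hw
    have hk : ∀ n : ℕ, 1 ≤ n → |kw p N w n / C0| ≤ kap ((n : ℝ) ^ 2 * w) := by
      intro n hn
      rw [abs_div, abs_of_pos hC00, div_le_iff₀ hC00, mul_comm]
      exact k0 p hp N n w hn hw0
    have h2 := h1 w hw0 _ hk p.e hp.1 c hc8 hco a ha Y h N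
    have h3 : ∑ y ∈ range Y, (S y w) ^ 2 ≤ C0 ^ 2 * (C1 * h * ((Y : ℝ) / a ^ 2 + 1 / w) *
        w ^ (-(1 / 2) : ℝ) * (1 + Real.log (1 + 1 / w)) * Real.exp (-(w / 4))) := by
      have e : ∀ y, S y w = C0 * ∑ d ∈ D y, N1 p.e (fun n => kw p N w n / C0) N d := by
        intro y
        simp only [hS]
        rw [Finset.mul_sum]
        exact Finset.sum_congr rfl fun d _ => N1_smul p.e _ N d hC00.ne'
      simp only [e, mul_pow]
      rw [← Finset.mul_sum]
      exact mul_le_mul_of_nonneg_left h2 (by positivity)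
    -- Cauchy-Schwarz
    have h4 : ∑ y ∈ range Y, |S y w| ≤ Real.sqrt Y * Real.sqrt (∑ y ∈ range Y, (S y w) ^ 2) := by
      rw [← Real.sqrt_mul hY0.le]
      refine Real.le_sqrt_of_sq_le ?_
      have := sq_sum_le_card_mul_sum_sq (s := range Y) (f := fun y => |S y w|)
      rw [Finset.card_range] at this
      simpa only [sq_abs] using this
    have hlw : 1 + Real.log (1 + 1 / w) ≤ 4 * Real.log Y := by
      have h5 : 1 / w ≤ p.r * Y := by
        rw [hz0] at hw
        have := one_div_lt_one_div_of_lt hz0p hw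
        rw [hz0, one_div_one_div] at this
        exact this.le
      have h6 : 1 + 1 / w ≤ 9 * Y := by
        have : (p.r : ℝ) * Y ≤ 8 * Y := mul_le_mul_of_nonneg_right hr8' hY0.le
        linarith
      have h7 : Real.log (1 + 1 / w) ≤ Real.log (9 * Y) := Real.log_le_log (by positivity) h6
      have h8 : Real.log (9 * Y) = Real.log 9 + Real.log Y := Real.log_mul (by norm_num) hY0.ne'
      have h9 : Real.log 9 = 2 * Real.log 3 := by
        rw [show (9 : ℝ) = 3 ^ 2 by norm_num, Real.log_pow]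
        norm_num
      have h10 : Real.log 3 ≤ Real.log Y := Real.log_le_log (by norm_num) hY3
      linarith
    have hlw0 : 0 ≤ Real.log (1 + 1 / w) := Real.log_nonneg (by
      have : 0 < 1 / w := by positivity
      linarith)
    -- the square root
    have h11 : Real.sqrt (∑ y ∈ range Y, (S y w) ^ 2) ≤ C0 * (Real.sqrt C1 * Real.sqrt h) *
        (2 * Real.sqrt (Real.log Y)) * ((Real.sqrt Y / a + w ^ (-(1 / 2) : ℝ)) *
        w ^ (-(1 / 4) : ℝ) * Real.exp (-(w / 8))) := by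
      refine Real.sqrt_le_iff.mpr ⟨by positivity, h3.trans ?_⟩
      have q1 : Real.sqrt C1 ^ 2 = C1 := Real.sq_sqrt hC1.le
      have q2 : Real.sqrt h ^ 2 = h := Real.sq_sqrt hh0
      have q3 : Real.sqrt (Real.log Y) ^ 2 = Real.log Y := Real.sq_sqrt (by linarith)
      have q4 : (w ^ (-(1 / 4) : ℝ)) ^ 2 = w ^ (-(1 / 2) : ℝ) := by
        rw [← Real.rpow_natCast, ← Real.rpow_mul hw0.le]
        norm_num
      have q5 : Real.exp (-(w / 8)) ^ 2 = Real.exp (-(w / 4)) := by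
        rw [← Real.exp_nat_mul]
        congr 1
        push_cast
        ring
      have q6 : (w ^ (-(1 / 2) : ℝ)) ^ 2 = 1 / w := by
        rw [← Real.rpow_natCast, ← Real.rpow_mul hw0.le,
          show (-(1 / 2) : ℝ) * ((2 : ℕ) : ℝ) = -1 by norm_num, Real.rpow_neg_one, one_div]
      have q7 : Real.sqrt Y ^ 2 = Y := Real.sq_sqrt hY0.le
      have q8 : (Y : ℝ) / a ^ 2 + 1 / w ≤ (Real.sqrt Y / a + w ^ (-(1 / 2) : ℝ)) ^ 2 := by
        rw [add_sq, div_pow, q7, q6]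
        have : 0 ≤ 2 * (Real.sqrt Y / a) * w ^ (-(1 / 2) : ℝ) := by positivity
        linarith
      calc C0 ^ 2 * (C1 * h * ((Y : ℝ) / a ^ 2 + 1 / w) * w ^ (-(1 / 2) : ℝ) *
            (1 + Real.log (1 + 1 / w)) * Real.exp (-(w / 4)))
          ≤ C0 ^ 2 * (C1 * h * (Real.sqrt Y / a + w ^ (-(1 / 2) : ℝ)) ^ 2 * w ^ (-(1 / 2) : ℝ) *
            (4 * Real.log Y) * Real.exp (-(w / 4))) := by
            gcongr
        _ = (C0 * (Real.sqrt C1 * Real.sqrt h) * (2 * Real.sqrt (Real.log Y)) *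
            ((Real.sqrt Y / a + w ^ (-(1 / 2) : ℝ)) * w ^ (-(1 / 4) : ℝ) * Real.exp (-(w / 8)))) ^ 2 := by
            simp only [mul_pow]
            rw [q1, q2, q3, q4, q5]
            ring
    have h12 : ∑ y ∈ range Y, |S y w| ≤ K * ((Real.sqrt Y / a + w ^ (-(1 / 2) : ℝ)) *
        w ^ (-(1 / 4) : ℝ) * Real.exp (-(w / 8))) := by
      refine h4.trans ((mul_le_mul_of_nonneg_left h11 (Real.sqrt_nonneg _)).trans (le_of_eq ?_))
      rw [hK]
      ring
    have r1 : w ^ (-(3 / 4) : ℝ) * w ^ (-(1 / 4) : ℝ) = w⁻¹ := by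
      rw [← Real.rpow_add hw0, ← Real.rpow_neg_one]
      norm_num
    have r2 : w ^ (-(1 / 2) : ℝ) * w⁻¹ = w ^ (-(3 / 2) : ℝ) := by
      rw [← Real.rpow_neg_one, ← Real.rpow_add hw0]
      norm_num
    calc w ^ (-(3 / 4) : ℝ) * ∑ y ∈ range Y, |S y w|
        ≤ w ^ (-(3 / 4) : ℝ) * (K * ((Real.sqrt Y / a + w ^ (-(1 / 2) : ℝ)) *
          w ^ (-(1 / 4) : ℝ) * Real.exp (-(w / 8)))) :=
          mul_le_mul_of_nonneg_left h12 (Real.rpow_nonneg hw0.le _)
      _ = K * (Real.sqrt Y / a * ((w ^ (-(3 / 4) : ℝ) * w ^ (-(1 / 4) : ℝ)) * Real.exp (-(w / 8))) +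
          w ^ (-(1 / 2) : ℝ) * (w ^ (-(3 / 4) : ℝ) * w ^ (-(1 / 4) : ℝ)) * Real.exp (-(w / 8))) := by ring
      _ = K * (Real.sqrt Y / a * (w⁻¹ * Real.exp (-(w / 8))) +
          w ^ (-(3 / 2) : ℝ) * Real.exp (-(w / 8))) := by rw [r1, r2]
      _ ≤ K * (Real.sqrt Y / a * (w⁻¹ * Real.exp (-(w / 8))) + w ^ (-(3 / 2) : ℝ)) := by
          refine mul_le_mul_of_nonneg_left (add_le_add le_rfl ?_) hK0
          refine mul_le_of_le_one_right (Real.rpow_nonneg hw0.le _) ?_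
          rw [Real.exp_le_one_iff]
          linarith
  -- step B
  obtain ⟨i1, v1⟩ := int_one hz0p hz01
  obtain ⟨i2, v2⟩ := int_two hz0p
  have hsumI : IntegrableOn (fun w : ℝ => w ^ (-(3 / 4) : ℝ) * ∑ y ∈ range Y, |S y w|) (Set.Ioi z0) := by
    simp only [Finset.mul_sum]
    exact integrable_finsetSum _ fun y _ => habs y
  have hB : ∑ y ∈ range Y, |∑ d ∈ D y, EN p N d (1 / (p.r * ((y : ℝ) + 1)))| ≤
      K * (Real.sqrt Y / a * (Real.log (1 / z0) + 8) + 2 * z0 ^ (-(1 / 2) : ℝ)) := by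
    calc ∑ y ∈ range Y, |∑ d ∈ D y, EN p N d (1 / (p.r * ((y : ℝ) + 1)))|
        ≤ ∑ y ∈ range Y, ∫ w in Set.Ioi z0, w ^ (-(3 / 4) : ℝ) * |S y w| := Finset.sum_le_sum hA
      _ = ∫ w in Set.Ioi z0, w ^ (-(3 / 4) : ℝ) * ∑ y ∈ range Y, |S y w| := by
          rw [← integral_finsetSum _ fun y _ => habs y]
          simp only [Finset.mul_sum]
      _ ≤ ∫ w in Set.Ioi z0, K * (Real.sqrt Y / a * (w⁻¹ * Real.exp (-(w / 8))) + w ^ (-(3 / 2) : ℝ)) :=
          setIntegral_mono_on hsumI (((i1.const_mul _).add i2).const_mul K) measurableSet_Ioi hC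
      _ = K * (Real.sqrt Y / a * (∫ w in Set.Ioi z0, w⁻¹ * Real.exp (-(w / 8))) +
          ∫ w in Set.Ioi z0, w ^ (-(3 / 2) : ℝ)) := by
          rw [integral_const_mul, integral_add (i1.const_mul _) i2, integral_const_mul]
      _ ≤ K * (Real.sqrt Y / a * (Real.log (1 / z0) + 8) + 2 * z0 ^ (-(1 / 2) : ℝ)) := by
          rw [v2]
          gcongr
  refine hB.trans ?_
  have e1 : 1 / z0 = p.r * Y := by rw [hz0, one_div_one_div]
  have e2 : Real.log (1 / z0) + 8 ≤ 12 * Real.log Y := by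
    rw [e1, Real.log_mul (by positivity) hY0.ne']
    have h13 : Real.log p.r ≤ Real.log 9 := Real.log_le_log (by positivity) (by linarith)
    have h9 : Real.log 9 = 2 * Real.log 3 := by
      rw [show (9 : ℝ) = 3 ^ 2 by norm_num, Real.log_pow]
      norm_num
    have h10 : Real.log 3 ≤ Real.log Y := Real.log_le_log (by norm_num) hY3
    linarith
  have e3 : z0 ^ (-(1 / 2) : ℝ) ≤ 3 * Real.sqrt Y := by
    rw [Real.rpow_neg hz0p.le, ← Real.inv_rpow hz0p.le, ← one_div, e1, ← Real.sqrt_eq_rpow]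
    have : (3 : ℝ) * Real.sqrt Y = Real.sqrt (9 * Y) := by
      rw [Real.sqrt_mul (by norm_num), show (9 : ℝ) = 3 ^ 2 by norm_num, Real.sqrt_sq (by norm_num)]
    rw [this]
    refine Real.sqrt_le_sqrt ?_
    have : (p.r : ℝ) * Y ≤ 8 * Y := mul_le_mul_of_nonneg_right hr8' hY0.le
    linarith
  have hsY : Real.sqrt Y * Real.sqrt Y = Y := Real.mul_self_sqrt hY0.le
  calc K * (Real.sqrt Y / a * (Real.log (1 / z0) + 8) + 2 * z0 ^ (-(1 / 2) : ℝ))
      ≤ K * (Real.sqrt Y / a * (12 * Real.log Y) + 2 * (3 * Real.sqrt Y)) := by gcongr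
    _ ≤ K * (Real.sqrt Y / a * (12 * Real.log Y) + 12 * Real.sqrt Y) := by
        refine mul_le_mul_of_nonneg_left ?_ hK0
        have := Real.sqrt_nonneg (Y : ℝ)
        linarith
    _ = C0 * Real.sqrt C1 * 2 * 12 * (Real.sqrt h * (Real.sqrt Y * Real.sqrt Y) *
          Real.sqrt (Real.log Y) * (Real.log Y / a + 1)) := by
        rw [hK]
        ring
    _ = C0 * Real.sqrt C1 * 2 * 12 * (Real.sqrt h * Y * Real.sqrt (Real.log Y) *
          (Real.log Y / a + 1)) := by rw [hsY]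

end

end Pool.Agent.Q153.FM
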