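import Pool.Agent.Q153.FM.J1

set_option autoImplicit false

/-! Project FM (helper122), job J2 (helper153). -/

namespace Pool.Agent.Q153.FM

open Finset Filter Topology MeasureTheory Pool.Agent.H306R2.RZ Pool.Agent.H306R2.RG
open Pool.Agent.Q122.FM

noncomputable section

/-- every `d` lies in at most `h` windows -/
theorem windows_le (F : ℕ → ℝ) (hF : ∀ d, 0 ≤ F d) (c Y h : ℕ) (hh : h ≤ Y) :
    ∑ y ∈ range Y, ∑ d ∈ (Ioc y (y + h)).filter (fun d => d % 8 = c), F d ≤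
      h * ∑ d ∈ (Icc 1 (2 * Y)).filter (fun d => d % 8 = c), F d := by
  have h1 : ∑ y ∈ range Y, ∑ d ∈ (Ioc y (y + h)).filter (fun d => d % 8 = c), F d =
      ∑ d ∈ (Icc 1 (2 * Y)).filter (fun d => d % 8 = c),
        ∑ y ∈ (range Y).filter (fun y => y < d ∧ d ≤ y + h), F d := by
    refine Finset.sum_comm' fun y d => ?_
    simp only [Finset.mem_range, Finset.mem_filter, Finset.mem_Ioc, Finset.mem_Icc]
    constructor
    · rintro ⟨h1, ⟨h2, h3⟩, h4⟩
      exact ⟨⟨h1, h2, h3⟩, ⟨⟨by omega, by omega⟩, h4⟩⟩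
    · rintro ⟨⟨h1, h2, h3⟩, ⟨_, h4⟩⟩
      exact ⟨h1, ⟨h2, h3⟩, h4⟩
  rw [h1, Finset.mul_sum]
  refine Finset.sum_le_sum fun d _ => ?_
  rw [Finset.sum_const, nsmul_eq_mul]
  refine mul_le_mul_of_nonneg_right ?_ (hF d)
  have h2 : (range Y).filter (fun y => y < d ∧ d ≤ y + h) ⊆ Ico (d - h) d := by
    intro y hy
    rw [Finset.mem_filter] at hy
    rw [Finset.mem_Ico]
    omega
  have h3 := Finset.card_le_card h2
  rw [Nat.card_Ico] at h3
  have : ((range Y).filter (fun y => y < d ∧ d ≤ y + h)).card ≤ h := by omega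
  exact_mod_cast this

/-- windows of length one -/
theorem win_one (F : ℕ → ℝ) (c M : ℕ) :
    ∑ y ∈ range M, (∑ d ∈ (Ioc y (y + 1)).filter (fun d => 1 ^ 2 ∣ d ∧ d % 8 = c), F d) ^ 2 =
      ∑ d ∈ (Icc 1 M).filter (fun d => d % 8 = c), F d ^ 2 := by
  have h1 : ∀ y, (∑ d ∈ (Ioc y (y + 1)).filter (fun d => 1 ^ 2 ∣ d ∧ d % 8 = c), F d) ^ 2 =
      if (y + 1) % 8 = c then F (y + 1) ^ 2 else 0 := by
    intro y
    have e : Ioc y (y + 1) = {y + 1} := by
      ext d
      simp only [Finset.mem_Ioc, Finset.mem_singleton]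
      omega
    rw [e, Finset.filter_singleton]
    by_cases h : (y + 1) % 8 = c
    · rw [if_pos h, if_pos ⟨by simp, h⟩, Finset.sum_singleton]
    · rw [if_neg h, if_neg (fun hh => h hh.2), Finset.sum_empty]
      norm_num
  rw [Finset.sum_congr rfl fun y _ => h1 y, Finset.sum_filter,
    Finset.sum_bij (fun y _ => y + 1) (t := Icc 1 M) (g := fun d => if d % 8 = c then F d ^ 2 else 0)]
  · intro y hy
    rw [Finset.mem_range] at hy
    rw [Finset.mem_Icc]
    omega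
  · intro a _ b _ h
    omega
  · intro b hb
    rw [Finset.mem_Icc] at hb
    exact ⟨b - 1, by rw [Finset.mem_range]; omega, by omega⟩
  · intro y _
    rfl

theorem t_J2 (ls1 : S_LS1) (ker : S_KER) (ra : S_RA) : S_J2 := by
  obtain ⟨C1, hC1, h1⟩ := ls1
  obtain ⟨⟨C0, hC0, k0⟩, k1⟩ := ker
  have hC00 : 0 < C0 := by linarith
  refine ⟨Real.sqrt 32 * C0 * Real.sqrt C1 * 2 * 24, by positivity,
    fun p hp c hc8 hco A Y h N hA1 hY hh hhY => ?_⟩
  have hr1 : 1 ≤ p.r := hp.2.1.1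
  have hr8 : p.r ≤ 8 := hp.2.1.2
  have hr1' : (1 : ℝ) ≤ p.r := by exact_mod_cast hr1
  have hr8' : (p.r : ℝ) ≤ 8 := by exact_mod_cast hr8
  have hY3 : (3 : ℝ) ≤ Y := by exact_mod_cast hY
  have hY0 : (0 : ℝ) < Y := by linarith
  have hA0 : (0 : ℝ) < A := by exact_mod_cast hA1
  have hh0 : (0 : ℝ) ≤ h := Nat.cast_nonneg h
  -- logarithms
  have hlog3 : 1 ≤ Real.log Y := by
    have h3 : Real.log 3 ≤ Real.log Y := Real.log_le_log (by norm_num) hY3
    have h4 : 1 ≤ Real.log 3 := by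
      rw [Real.le_log_iff_exp_le (by norm_num)]
      have := Real.exp_one_lt_d9
      linarith
    linarith
  set D2 : Finset ℕ := (Icc 1 (2 * Y)).filter (fun d => d % 8 = c) with hD2
  set z0 : ℝ := 1 / (p.r * Y) with hz0
  have hz0p : 0 < z0 := by positivity
  have hz01 : z0 ≤ 1 := by
    rw [hz0, div_le_one (by positivity)]
    nlinarith
  have habs : ∀ d, IntegrableOn (fun w : ℝ => w ^ (-(3 / 4) : ℝ) * |N1 p.e (kw p N w) N d|)
      (Set.Ioi z0) := by
    intro d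
    refine (k1 p hp N d z0 hz0p).1.abs.congr ?_
    rw [EventuallyEq, ae_restrict_iff' measurableSet_Ioi]
    refine Eventually.of_forall fun w hw => ?_
    have hw0 : (0 : ℝ) < w := lt_trans hz0p hw
    rw [abs_mul, abs_of_nonneg (Real.rpow_nonneg hw0.le _)]
  set G : ℕ → ℝ := fun d => ∫ w in Set.Ioi z0, w ^ (-(3 / 4) : ℝ) * |N1 p.e (kw p N w) N d| with hG
  -- step A
  have hA : ∀ y ∈ range Y, ∀ d, |EN p N d (1 / (p.r * ((y : ℝ) + 1)))| ≤ G d := by
    intro y hy d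
    have hyY : (y : ℝ) + 1 ≤ Y := by
      have := Finset.mem_range.mp hy
      exact_mod_cast this
    have hzy : 0 < 1 / (p.r * ((y : ℝ) + 1)) := by positivity
    have hzz : z0 ≤ 1 / (p.r * ((y : ℝ) + 1)) :=
      one_div_le_one_div_of_le (by positivity) (mul_le_mul_of_nonneg_left hyY (by positivity))
    rw [(k1 p hp N d _ hzy).2]
    calc |∫ w in Set.Ioi (1 / (p.r * ((y : ℝ) + 1))), w ^ (-(3 / 4) : ℝ) * N1 p.e (kw p N w) N d|
        ≤ ∫ w in Set.Ioi (1 / (p.r * ((y : ℝ) + 1))), |w ^ (-(3 / 4) : ℝ) * N1 p.e (kw p N w) N d| :=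
          abs_integral_le_integral_abs
      _ = ∫ w in Set.Ioi (1 / (p.r * ((y : ℝ) + 1))), w ^ (-(3 / 4) : ℝ) *
          |N1 p.e (kw p N w) N d| := by
          refine setIntegral_congr_fun measurableSet_Ioi fun w hw => ?_
          have hw0 : (0 : ℝ) < w := lt_trans hzy hw
          rw [abs_mul, abs_of_nonneg (Real.rpow_nonneg hw0.le _)]
      _ ≤ G d := by
          refine setIntegral_mono_set (habs d) ?_ (Set.Ioi_subset_Ioi hzz).eventuallyLE
          rw [EventuallyLE, ae_restrict_iff' measurableSet_Ioi]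
          refine Eventually.of_forall fun w hw => ?_
          have hw0 : (0 : ℝ) < w := lt_trans hz0p hw
          exact mul_nonneg (Real.rpow_nonneg hw0.le _) (abs_nonneg _)
  have hG0 : ∀ d, 0 ≤ G d := fun d => setIntegral_nonneg measurableSet_Ioi fun w hw =>
    mul_nonneg (Real.rpow_nonneg (lt_trans hz0p hw).le _) (abs_nonneg _)
  have hW : ∑ y ∈ range Y, ∑ d ∈ (Ioc y (y + h)).filter (fun d => d % 8 = c),
      |RA A d| * |EN p N d (1 / (p.r * ((y : ℝ) + 1)))| ≤ h * ∑ d ∈ D2, |RA A d| * G d := by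
    refine le_trans (Finset.sum_le_sum fun y hy => Finset.sum_le_sum fun d _ =>
      mul_le_mul_of_nonneg_left (hA y hy d) (abs_nonneg _)) ?_
    exact windows_le (fun d => |RA A d| * G d) (fun d => mul_nonneg (abs_nonneg _) (hG0 d)) c Y h hhY
  -- step C: the pointwise bound
  set K : ℝ := Real.sqrt (32 * Y / A) * (C0 * Real.sqrt C1 * (2 * Real.sqrt (Real.log Y))) with hK
  have hK0 : 0 ≤ K := by positivity
  have hRA : ∑ d ∈ D2, RA A d ^ 2 ≤ 32 * Y / A := by
    refine le_trans (Finset.sum_le_sum_of_subset_of_nonneg (Finset.filter_subset _ _)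
      fun d _ _ => sq_nonneg _) ((ra A (2 * Y) hA1).trans (le_of_eq ?_))
    push_cast
    ring
  have hC : ∀ w ∈ Set.Ioi z0, w ^ (-(3 / 4) : ℝ) * ∑ d ∈ D2, |RA A d| * |N1 p.e (kw p N w) N d| ≤
      K * (Real.sqrt (2 * Y) * (w⁻¹ * Real.exp (-(w / 8))) + w ^ (-(3 / 2) : ℝ)) := by
    intro w hw
    have hw0 : (0 : ℝ) < w := lt_trans hz0p hw
    have hk : ∀ n : ℕ, 1 ≤ n → |kw p N w n / C0| ≤ kap ((n : ℝ) ^ 2 * w) := by
      intro n hn
      rw [abs_div, abs_of_pos hC00, div_le_iff₀ hC00, mul_comm]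
      exact k0 p hp N n w hn hw0
    have h2 := h1 w hw0 _ hk p.e hp.1 c hc8 hco 1 odd_one (2 * Y) 1 N
    rw [win_one] at h2
    have h3 : ∑ d ∈ D2, N1 p.e (kw p N w) N d ^ 2 ≤ C0 ^ 2 * (C1 * ((2 * Y : ℝ) + 1 / w) *
        w ^ (-(1 / 2) : ℝ) * (1 + Real.log (1 + 1 / w)) * Real.exp (-(w / 4))) := by
      have e : ∀ d, N1 p.e (kw p N w) N d ^ 2 =
          C0 ^ 2 * N1 p.e (fun n => kw p N w n / C0) N d ^ 2 := by
        intro d
        rw [N1_smul p.e _ N d hC00.ne', mul_pow]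
      simp only [e]
      rw [← Finset.mul_sum]
      refine mul_le_mul_of_nonneg_left (h2.trans (le_of_eq ?_)) (by positivity)
      push_cast
      ring
    -- Cauchy-Schwarz
    have h4 : ∑ d ∈ D2, |RA A d| * |N1 p.e (kw p N w) N d| ≤ Real.sqrt (32 * Y / A) *
        Real.sqrt (∑ d ∈ D2, N1 p.e (kw p N w) N d ^ 2) := by
      have := Real.sum_mul_le_sqrt_mul_sqrt D2 (fun d => |RA A d|)
        (fun d => |N1 p.e (kw p N w) N d|)
      simp only [sq_abs] at this
      exact this.trans (mul_le_mul_of_nonneg_right (Real.sqrt_le_sqrt hRA) (Real.sqrt_nonneg _))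
    have hlw : 1 + Real.log (1 + 1 / w) ≤ 4 * Real.log Y := by
      have h5 : 1 / w ≤ p.r * Y := by
        rw [hz0] at hw
        have := one_div_lt_one_div_of_lt hz0p hw
        rw [hz0, one_div_one_div] at this
        exact this.le
      have h6 : 1 + 1 / w ≤ 9 * Y := by
        have : (p.r : ℝ) * Y ≤ 8 * Y := mul_le_mul_of_nonneg_right hr8' hY0.le
        linarith
      have h7 : Real.log (1 + 1 / w) ≤ Real.log (9 * Y) := Real.log_le_log (by positivity) h6
      have h8 : Real.log (9 * Y) = Real.log 9 + Real.log Y := Real.log_mul (by norm_num) hY0.ne'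
      have h9 : Real.log 9 = 2 * Real.log 3 := by
        rw [show (9 : ℝ) = 3 ^ 2 by norm_num, Real.log_pow]
        norm_num
      have h10 : Real.log 3 ≤ Real.log Y := Real.log_le_log (by norm_num) hY3
      linarith
    have hlw0 : 0 ≤ Real.log (1 + 1 / w) := Real.log_nonneg (by
      have : 0 < 1 / w := by positivity
      linarith)
    -- the square root
    have h11 : Real.sqrt (∑ d ∈ D2, N1 p.e (kw p N w) N d ^ 2) ≤ C0 * Real.sqrt C1 *
        (2 * Real.sqrt (Real.log Y)) * ((Real.sqrt (2 * Y) + w ^ (-(1 / 2) : ℝ)) *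
        w ^ (-(1 / 4) : ℝ) * Real.exp (-(w / 8))) := by
      refine Real.sqrt_le_iff.mpr ⟨by positivity, h3.trans ?_⟩
      have q1 : Real.sqrt C1 ^ 2 = C1 := Real.sq_sqrt hC1.le
      have q3 : Real.sqrt (Real.log Y) ^ 2 = Real.log Y := Real.sq_sqrt (by linarith)
      have q4 : (w ^ (-(1 / 4) : ℝ)) ^ 2 = w ^ (-(1 / 2) : ℝ) := by
        rw [← Real.rpow_natCast, ← Real.rpow_mul hw0.le]
        norm_num
      have q5 : Real.exp (-(w / 8)) ^ 2 = Real.exp (-(w / 4)) := by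
        rw [← Real.exp_nat_mul]
        congr 1
        push_cast
        ring
      have q6 : (w ^ (-(1 / 2) : ℝ)) ^ 2 = 1 / w := by
        rw [← Real.rpow_natCast, ← Real.rpow_mul hw0.le,
          show (-(1 / 2) : ℝ) * ((2 : ℕ) : ℝ) = -1 by norm_num, Real.rpow_neg_one, one_div]
      have q7 : Real.sqrt (2 * Y) ^ 2 = 2 * Y := Real.sq_sqrt (by positivity)
      have q8 : (2 * Y : ℝ) + 1 / w ≤ (Real.sqrt (2 * Y) + w ^ (-(1 / 2) : ℝ)) ^ 2 := by
        rw [add_sq, q7, q6]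
        have : 0 ≤ 2 * (Real.sqrt (2 * Y)) * w ^ (-(1 / 2) : ℝ) := by positivity
        linarith
      calc C0 ^ 2 * (C1 * ((2 * Y : ℝ) + 1 / w) * w ^ (-(1 / 2) : ℝ) *
            (1 + Real.log (1 + 1 / w)) * Real.exp (-(w / 4)))
          ≤ C0 ^ 2 * (C1 * (Real.sqrt (2 * Y) + w ^ (-(1 / 2) : ℝ)) ^ 2 * w ^ (-(1 / 2) : ℝ) *
            (4 * Real.log Y) * Real.exp (-(w / 4))) := by
            gcongr
        _ = (C0 * Real.sqrt C1 * (2 * Real.sqrt (Real.log Y)) *
            ((Real.sqrt (2 * Y) + w ^ (-(1 / 2) : ℝ)) * w ^ (-(1 / 4) : ℝ) *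
              Real.exp (-(w / 8)))) ^ 2 := by
            simp only [mul_pow]
            rw [q1, q3, q4, q5]
            ring
    have h12 : ∑ d ∈ D2, |RA A d| * |N1 p.e (kw p N w) N d| ≤
        K * ((Real.sqrt (2 * Y) + w ^ (-(1 / 2) : ℝ)) *
        w ^ (-(1 / 4) : ℝ) * Real.exp (-(w / 8))) := by
      refine h4.trans ((mul_le_mul_of_nonneg_left h11 (Real.sqrt_nonneg _)).trans (le_of_eq ?_))
      rw [hK]
      ring
    have r1 : w ^ (-(3 / 4) : ℝ) * w ^ (-(1 / 4) : ℝ) = w⁻¹ := by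
      rw [← Real.rpow_add hw0, ← Real.rpow_neg_one]
      norm_num
    have r2 : w ^ (-(1 / 2) : ℝ) * w⁻¹ = w ^ (-(3 / 2) : ℝ) := by
      rw [← Real.rpow_neg_one, ← Real.rpow_add hw0]
      norm_num
    calc w ^ (-(3 / 4) : ℝ) * ∑ d ∈ D2, |RA A d| * |N1 p.e (kw p N w) N d|
        ≤ w ^ (-(3 / 4) : ℝ) * (K * ((Real.sqrt (2 * Y) + w ^ (-(1 / 2) : ℝ)) *
          w ^ (-(1 / 4) : ℝ) * Real.exp (-(w / 8)))) :=
          mul_le_mul_of_nonneg_left h12 (Real.rpow_nonneg hw0.le _)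
      _ = K * (Real.sqrt (2 * Y) * ((w ^ (-(3 / 4) : ℝ) * w ^ (-(1 / 4) : ℝ)) *
          Real.exp (-(w / 8))) +
          w ^ (-(1 / 2) : ℝ) * (w ^ (-(3 / 4) : ℝ) * w ^ (-(1 / 4) : ℝ)) * Real.exp (-(w / 8))) := by ring
      _ = K * (Real.sqrt (2 * Y) * (w⁻¹ * Real.exp (-(w / 8))) +
          w ^ (-(3 / 2) : ℝ) * Real.exp (-(w / 8))) := by rw [r1, r2]
      _ ≤ K * (Real.sqrt (2 * Y) * (w⁻¹ * Real.exp (-(w / 8))) + w ^ (-(3 / 2) : ℝ)) := by
          refine mul_le_mul_of_nonneg_left (add_le_add le_rfl ?_) hK0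
          refine mul_le_of_le_one_right (Real.rpow_nonneg hw0.le _) ?_
          rw [Real.exp_le_one_iff]
          linarith
  -- step B
  obtain ⟨i1, v1⟩ := int_one hz0p hz01
  obtain ⟨i2, v2⟩ := int_two hz0p
  have habs2 : ∀ d, IntegrableOn (fun w : ℝ => w ^ (-(3 / 4) : ℝ) *
      (|RA A d| * |N1 p.e (kw p N w) N d|)) (Set.Ioi z0) := by
    intro d
    refine ((habs d).const_mul |RA A d|).congr (Eventually.of_forall fun w => ?_)
    ring
  have hsumI : IntegrableOn (fun w : ℝ => w ^ (-(3 / 4) : ℝ) *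
      ∑ d ∈ D2, |RA A d| * |N1 p.e (kw p N w) N d|) (Set.Ioi z0) := by
    simp only [Finset.mul_sum]
    exact integrable_finsetSum _ fun d _ => habs2 d
  have hB : ∑ d ∈ D2, |RA A d| * G d ≤
      K * (Real.sqrt (2 * Y) * (Real.log (1 / z0) + 8) + 2 * z0 ^ (-(1 / 2) : ℝ)) := by
    calc ∑ d ∈ D2, |RA A d| * G d
        = ∑ d ∈ D2, ∫ w in Set.Ioi z0, w ^ (-(3 / 4) : ℝ) *
          (|RA A d| * |N1 p.e (kw p N w) N d|) := by
          refine Finset.sum_congr rfl fun d _ => ?_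
          simp only [hG]
          rw [← integral_const_mul]
          refine integral_congr_ae (Eventually.of_forall fun w => ?_)
          ring
      _ = ∫ w in Set.Ioi z0, w ^ (-(3 / 4) : ℝ) *
          ∑ d ∈ D2, |RA A d| * |N1 p.e (kw p N w) N d| := by
          rw [← integral_finsetSum _ fun d _ => habs2 d]
          simp only [Finset.mul_sum]
      _ ≤ ∫ w in Set.Ioi z0, K * (Real.sqrt (2 * Y) * (w⁻¹ * Real.exp (-(w / 8))) +
          w ^ (-(3 / 2) : ℝ)) :=
          setIntegral_mono_on hsumI (((i1.const_mul _).add i2).const_mul K) measurableSet_Ioi hC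
      _ = K * (Real.sqrt (2 * Y) * (∫ w in Set.Ioi z0, w⁻¹ * Real.exp (-(w / 8))) +
          ∫ w in Set.Ioi z0, w ^ (-(3 / 2) : ℝ)) := by
          rw [integral_const_mul, integral_add (i1.const_mul _) i2, integral_const_mul]
      _ ≤ K * (Real.sqrt (2 * Y) * (Real.log (1 / z0) + 8) + 2 * z0 ^ (-(1 / 2) : ℝ)) := by
          rw [v2]
          gcongr
  have e1 : 1 / z0 = p.r * Y := by rw [hz0, one_div_one_div]
  have e2 : Real.log (1 / z0) + 8 ≤ 12 * Real.log Y := by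
    rw [e1, Real.log_mul (by positivity) hY0.ne']
    have h13 : Real.log p.r ≤ Real.log 9 := Real.log_le_log (by positivity) (by linarith)
    have h9 : Real.log 9 = 2 * Real.log 3 := by
      rw [show (9 : ℝ) = 3 ^ 2 by norm_num, Real.log_pow]
      norm_num
    have h10 : Real.log 3 ≤ Real.log Y := Real.log_le_log (by norm_num) hY3
    linarith
  have e3 : z0 ^ (-(1 / 2) : ℝ) ≤ 3 * Real.sqrt Y := by
    rw [Real.rpow_neg hz0p.le, ← Real.inv_rpow hz0p.le, ← one_div, e1, ← Real.sqrt_eq_rpow]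
    have : (3 : ℝ) * Real.sqrt Y = Real.sqrt (9 * Y) := by
      rw [Real.sqrt_mul (by norm_num), show (9 : ℝ) = 3 ^ 2 by norm_num, Real.sqrt_sq (by norm_num)]
    rw [this]
    refine Real.sqrt_le_sqrt ?_
    have : (p.r : ℝ) * Y ≤ 8 * Y := mul_le_mul_of_nonneg_right hr8' hY0.le
    linarith
  have hsY : Real.sqrt Y * Real.sqrt Y = Y := Real.mul_self_sqrt hY0.le
  have e4 : Real.sqrt (2 * Y) ≤ 3 / 2 * Real.sqrt Y := by
    rw [Real.sqrt_mul (by norm_num)]
    refine mul_le_mul_of_nonneg_right ?_ (Real.sqrt_nonneg _)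
    rw [Real.sqrt_le_left (by norm_num)]
    norm_num
  have e5 : Real.sqrt (32 * Y / A) = Real.sqrt 32 * Real.sqrt Y / Real.sqrt A := by
    rw [Real.sqrt_div (by positivity), Real.sqrt_mul (by norm_num)]
  have e6 : Real.log Y ^ (3 / 2 : ℝ) = Real.log Y * Real.sqrt (Real.log Y) := by
    rw [show (3 / 2 : ℝ) = 1 + 1 / 2 by norm_num, Real.rpow_add (by linarith), Real.rpow_one,
      Real.sqrt_eq_rpow]
  have hsA : 0 < Real.sqrt A := Real.sqrt_pos.mpr hA0
  refine hW.trans ((mul_le_mul_of_nonneg_left hB hh0).trans ?_)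
  calc (h : ℝ) * (K * (Real.sqrt (2 * Y) * (Real.log (1 / z0) + 8) + 2 * z0 ^ (-(1 / 2) : ℝ)))
      ≤ h * (K * (3 / 2 * Real.sqrt Y * (12 * Real.log Y) + 2 * (3 * Real.sqrt Y))) := by
        have : 0 ≤ Real.log (1 / z0) + 8 := by
          rw [e1]
          have : 0 ≤ Real.log (p.r * Y) := Real.log_nonneg (by nlinarith)
          linarith
        gcongr
    _ ≤ h * (K * (24 * (Real.sqrt Y * Real.log Y))) := by
        refine mul_le_mul_of_nonneg_left (mul_le_mul_of_nonneg_left ?_ hK0) hh0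
        have h1 := Real.sqrt_nonneg (Y : ℝ)
        nlinarith
    _ = Real.sqrt 32 * C0 * Real.sqrt C1 * 2 * 24 * (h * (Real.sqrt Y * Real.sqrt Y) *
          (Real.log Y * Real.sqrt (Real.log Y)) / Real.sqrt A) := by
        rw [hK, e5]
        ring
    _ = _ := by rw [hsY, e6]

end

end Pool.Agent.Q153.FM
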