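import Pool.Agent.Q122.FM.Stm
import Pool.Agent.H379R2.SW1

set_option autoImplicit false

/-! Project FM (helper122), job LIM (helper153). The block series is the one of `H379R2.SW1`. -/

namespace Pool.Agent.Q153.FM.Lim

open Finset Filter Topology Complex
open Pool.Agent.H379R2.SW (blk blk_norm_le blk_differentiable partial_sum_eq)
open Pool.Agent.Q122.FM (S_LIM)

noncomputable section

variable {q : ℕ} [NeZero q]

theorem summ {a : ℝ} (ha : 0 < a) : Summable (fun m : ℕ => ((m + 1 : ℕ) : ℝ) ^ (-a - 1)) :=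
  (summable_nat_add_iff 1).mpr (Real.summable_nat_rpow.mpr (by linarith))

theorem base_le (m : ℕ) {a b : ℝ} (ha : 0 < a) (hab : a ≤ b) :
    ((m * q + 1 : ℕ) : ℝ) ^ (-b - 1) ≤ ((m + 1 : ℕ) : ℝ) ^ (-a - 1) := by
  have hq : 1 ≤ q := NeZero.one_le
  have h1 : ((m + 1 : ℕ) : ℝ) ≤ ((m * q + 1 : ℕ) : ℝ) := by
    have : m + 1 ≤ m * q + 1 := by nlinarith
    exact_mod_cast this
  have h2 : (1 : ℝ) ≤ ((m + 1 : ℕ) : ℝ) := by
    have : 1 ≤ m + 1 := by omega
    exact_mod_cast this
  calc ((m * q + 1 : ℕ) : ℝ) ^ (-b - 1) ≤ ((m + 1 : ℕ) : ℝ) ^ (-b - 1) :=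
        Real.rpow_le_rpow_of_nonpos (by linarith) h1 (by linarith)
    _ ≤ _ := Real.rpow_le_rpow_of_exponent_le h2 (by linarith)

theorem summable_blk (Φ : ZMod q → ℂ) (hΦ : ∀ j, ‖Φ j‖ ≤ 1) (h0 : ∑ j, Φ j = 0) {s : ℂ}
    (hs : 0 < s.re) : Summable (fun m => blk Φ m s) := by
  refine Summable.of_norm_bounded ((summ hs).mul_left ((q : ℝ) ^ 2 * ‖s‖)) fun m => ?_
  refine (blk_norm_le Φ hΦ h0 m hs.le).trans (mul_le_mul_of_nonneg_left ?_ (by positivity))
  exact base_le m hs le_rfl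

theorem tsum_blk_differentiableAt (Φ : ZMod q → ℂ) (hΦ : ∀ j, ‖Φ j‖ ≤ 1) (h0 : ∑ j, Φ j = 0)
    {s : ℂ} (hs : 0 < s.re) : DifferentiableAt ℂ (fun s => ∑' m, blk Φ m s) s := by
  set U : Set ℂ := {w | s.re / 2 < w.re} ∩ Metric.ball 0 (‖s‖ + 1) with hU
  have hUo : IsOpen U := (isOpen_lt continuous_const continuous_re).inter Metric.isOpen_ball
  have hsU : s ∈ U := ⟨by show s.re / 2 < s.re; linarith, by simp⟩
  have h1 : DifferentiableOn ℂ (fun s => ∑' m : ℕ, blk Φ m s) U := by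
    have hb : Summable (fun m : ℕ => (q : ℝ) ^ 2 * (‖s‖ + 1) * ((m + 1 : ℕ) : ℝ) ^
        (-(s.re / 2) - 1)) := (summ (by linarith)).mul_left _
    refine differentiableOn_tsum_of_summable_norm hb
      (fun m => (blk_differentiable Φ m).differentiableOn) hUo (fun m w hw => ?_)
    have hw1 : s.re / 2 < w.re := hw.1
    have hw2 : ‖w‖ ≤ ‖s‖ + 1 := by
      have := hw.2
      rw [Metric.mem_ball, dist_zero_right] at this
      exact this.le
    refine (blk_norm_le Φ hΦ h0 m (by linarith)).trans ?_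
    exact mul_le_mul (mul_le_mul_of_nonneg_left hw2 (by positivity))
      (base_le m (by linarith) hw1.le) (by positivity) (by positivity)
  exact h1.differentiableAt (hUo.mem_nhds hsU)

/-- the block series represents the L-function for `Re s > 0` -/
theorem LFunction_eq_tsum (Φ : ZMod q → ℂ) (hΦ : ∀ j, ‖Φ j‖ ≤ 1) (h0 : ∑ j, Φ j = 0)
    {s : ℂ} (hs : 0 < s.re) : ZMod.LFunction Φ s = ∑' m, blk Φ m s := by
  set V : Set ℂ := {w | 0 < w.re} with hV
  have hVo : IsOpen V := isOpen_lt continuous_const continuous_re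
  have hVc : IsPreconnected V := (convex_halfSpace_re_gt 0).isPreconnected
  have hf : AnalyticOnNhd ℂ (ZMod.LFunction Φ) V :=
    ((ZMod.differentiable_LFunction_of_sum_zero h0).differentiableOn).analyticOnNhd hVo
  have hg : AnalyticOnNhd ℂ (fun s => ∑' m, blk Φ m s) V := by
    apply DifferentiableOn.analyticOnNhd _ hVo
    intro w hw
    exact (tsum_blk_differentiableAt Φ hΦ h0 hw).differentiableWithinAt
  have h2 : (2 : ℂ) ∈ V := by simp [hV]
  have heq : ZMod.LFunction Φ =ᶠ[𝓝 2] (fun s => ∑' m, blk Φ m s) := by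
    have : {w : ℂ | 1 < w.re} ∈ 𝓝 (2 : ℂ) :=
      (isOpen_lt continuous_const continuous_re).mem_nhds (by simp)
    filter_upwards [this] with w hw
    exact Pool.Agent.H379R2.SW.LFunction_eq_tsum_of_one_lt Φ hΦ h0 hw
  exact hf.eqOn_of_preconnected_of_eventuallyEq hg hVc h2 heq hs

theorem t_LIM : S_LIM := by
  intro q _ χ hχ σ hσ
  set Φ : ZMod q → ℂ := fun z => χ z with hΦd
  have hΦ : ∀ j, ‖Φ j‖ ≤ 1 := fun j => χ.norm_le_one j
  have h0 : ∑ j, Φ j = 0 := MulChar.sum_eq_zero_of_ne_one hχ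
  have hs : 0 < ((σ : ℝ) : ℂ).re := by rw [Complex.ofReal_re]; exact hσ
  have hq : 0 < q := NeZero.pos q
  set P : ℕ → ℂ := fun N => ∑ n ∈ range (N + 1), LSeries.term (fun n => Φ (n : ZMod q)) (σ : ℂ) n
    with hP
  have hterm : ∀ n : ℕ, 1 ≤ n → LSeries.term (fun n => Φ (n : ZMod q)) (σ : ℂ) n =
      χ (n : ZMod q) * (((n : ℝ) ^ (-σ) : ℝ) : ℂ) := by
    intro n hn
    have hn0 : (0 : ℝ) < n := by exact_mod_cast hn
    rw [LSeries.term_of_ne_zero (by omega), Real.rpow_neg hn0.le, Complex.ofReal_inv,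
      Complex.ofReal_cpow hn0.le, Complex.ofReal_natCast, div_eq_mul_inv]
  have hPe : ∀ N : ℕ, P N = ∑ n ∈ Icc 1 N, χ (n : ZMod q) * (((n : ℝ) ^ (-σ) : ℝ) : ℂ) := by
    intro N
    have h : range (N + 1) = insert 0 (Icc 1 N) := by
      ext u
      simp only [Finset.mem_range, Finset.mem_insert, Finset.mem_Icc]
      omega
    simp only [hP]
    rw [h, Finset.sum_insert (by simp), LSeries.term_zero, zero_add]
    exact Finset.sum_congr rfl fun n hn => hterm n (Finset.mem_Icc.mp hn).1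
  -- blocks
  have hB : Tendsto (fun M : ℕ => P (M * q)) atTop (𝓝 (DirichletCharacter.LFunction χ (σ : ℂ))) := by
    have h1 := (summable_blk Φ hΦ h0 hs).hasSum.tendsto_sum_nat
    rw [← LFunction_eq_tsum Φ hΦ h0 hs] at h1
    refine h1.congr fun M => ?_
    rw [← partial_sum_eq]
  have hdiv : Tendsto (fun N : ℕ => N / q) atTop atTop := by
    refine tendsto_atTop.mpr fun b => ?_
    filter_upwards [eventually_ge_atTop (b * q)] with N hN
    exact (Nat.le_div_iff_mul_le hq).mpr hN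
  have hB2 := hB.comp hdiv
  -- the remainder
  have hR : ∀ N : ℕ, ‖P N - P (N / q * q)‖ ≤ q * (((N / q : ℕ) + 1 : ℝ) ^ (-σ)) := by
    intro N
    have hle : N / q * q + 1 ≤ N + 1 := by
      have := Nat.div_mul_le_self N q
      omega
    have e : P N - P (N / q * q) = ∑ n ∈ Ico (N / q * q + 1) (N + 1),
        LSeries.term (fun n => Φ (n : ZMod q)) (σ : ℂ) n := by
      simp only [hP]
      rw [← Finset.sum_range_add_sum_Ico _ hle, add_sub_cancel_left]
    rw [e]
    refine (norm_sum_le_of_le _ (f := fun n => LSeries.term (fun n => Φ (n : ZMod q)) (σ : ℂ) n)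
      (n := fun _ => ((N / q : ℕ) + 1 : ℝ) ^ (-σ)) fun n hn => ?_).trans ?_
    · rw [Finset.mem_Ico] at hn
      have hn1 : 1 ≤ n := by omega
      rw [hterm n hn1, norm_mul, Complex.norm_real, Real.norm_of_nonneg (by positivity)]
      have h2 : ((N / q : ℕ) + 1 : ℝ) ≤ n := by
        have : N / q + 1 ≤ n := by
          have : N / q ≤ N / q * q := Nat.le_mul_of_pos_right _ hq
          omega
        exact_mod_cast this
      calc ‖χ (n : ZMod q)‖ * (n : ℝ) ^ (-σ) ≤ 1 * (n : ℝ) ^ (-σ) :=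
            mul_le_mul_of_nonneg_right (χ.norm_le_one _) (by positivity)
        _ ≤ _ := by
            rw [one_mul]
            exact Real.rpow_le_rpow_of_nonpos (by positivity) h2 (by linarith)
    · rw [Finset.sum_const, Nat.card_Ico, nsmul_eq_mul]
      refine mul_le_mul_of_nonneg_right ?_ (by positivity)
      have h3 := Nat.div_add_mod N q
      have h4 := Nat.mod_lt N hq
      have : N + 1 - (N / q * q + 1) ≤ q := by
        rw [mul_comm] at h3
        omega
      exact_mod_cast this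
  have hz : Tendsto (fun N : ℕ => (q : ℝ) * (((N / q : ℕ) + 1 : ℝ) ^ (-σ))) atTop (𝓝 0) := by
    have h1 : Tendsto (fun N : ℕ => (((N / q : ℕ) : ℝ) + 1)) atTop atTop :=
      tendsto_atTop_add_const_right _ _ (tendsto_natCast_atTop_atTop.comp hdiv)
    have h2 := (tendsto_rpow_neg_atTop hσ).comp h1
    have h3 := h2.const_mul (q : ℝ)
    rw [mul_zero] at h3
    exact h3
  have hD : Tendsto (fun N : ℕ => P N - P (N / q * q)) atTop (𝓝 0) :=
    squeeze_zero_norm hR hz
  have hF := hD.add hB2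
  rw [zero_add] at hF
  refine hF.congr fun N => ?_
  rw [← hPe N]
  simp only [Function.comp]
  ring

end

end Pool.Agent.Q153.FM.Lim
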