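import Pool.Agent.Q122.FM.Stm
import Pool.Agent.H423R2.RGL.CC3
import Pool.Agent.H85R2.RG_CC4

set_option autoImplicit false

/-! Project FM (helper122), job REP (helper153). -/

namespace Pool.Agent.Q153.FM

open Finset Filter Topology MeasureTheory Pool.Agent.H306R2.RZ Pool.Agent.H306R2.RG
open Pool.Agent.Q122.FM
open Pool.Agent.H85R2.RG_CC4 (fam_facts term_le summable_geo abs_cf_le)

noncomputable section

/-- the substitution in the incomplete Gamma function -/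
theorem IG_sub (a : ℕ) {v : ℝ} (hv : 0 < v) :
    ∫ y in Set.Ioi (1 : ℝ), Real.exp (-(Real.pi * v * y)) * y ^ ((a : ℝ) / 2 - 3 / 4) =
      v ^ (-((a : ℝ) / 2 + 1 / 4)) * IG a v := by
  have h := integral_comp_mul_left_Ioi
    (fun t : ℝ => t ^ ((a : ℝ) / 2 - 3 / 4) * Real.exp (-(Real.pi * t))) 1 hv
  rw [mul_one, smul_eq_mul] at h
  unfold IG
  have h2 : ∫ t in Set.Ioi v, t ^ ((a : ℝ) / 2 - 3 / 4) * Real.exp (-(Real.pi * t)) =
      v * ∫ x in Set.Ioi (1 : ℝ), (v * x) ^ ((a : ℝ) / 2 - 3 / 4) *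
        Real.exp (-(Real.pi * (v * x))) := by
    rw [h, ← mul_assoc, mul_inv_cancel₀ hv.ne', one_mul]
  rw [h2, ← mul_assoc, ← integral_const_mul]
  refine setIntegral_congr_fun measurableSet_Ioi fun y hy => ?_
  have hy0 : (0 : ℝ) < y := lt_trans one_pos hy
  rw [Real.mul_rpow hv.le hy0.le]
  have e1 : v ^ (-((a : ℝ) / 2 + 1 / 4)) * v * v ^ ((a : ℝ) / 2 - 3 / 4) = 1 := by
    rw [← Real.rpow_add_one hv.ne', ← Real.rpow_add hv]
    convert Real.rpow_zero v using 2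
    ring
  have e2 : Real.exp (-(Real.pi * (v * y))) = Real.exp (-(Real.pi * v * y)) := by
    congr 1; ring
  rw [e2]
  calc Real.exp (-(Real.pi * v * y)) * y ^ ((a : ℝ) / 2 - 3 / 4)
      = 1 * (y ^ ((a : ℝ) / 2 - 3 / 4) * Real.exp (-(Real.pi * v * y))) := by ring
    _ = (v ^ (-((a : ℝ) / 2 + 1 / 4)) * v * v ^ ((a : ℝ) / 2 - 3 / 4)) *
        (y ^ ((a : ℝ) / 2 - 3 / 4) * Real.exp (-(Real.pi * v * y))) := by rw [e1]
    _ = _ := by ring

/-- the integral of the theta function is twice the integral over `(1,∞)` -/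
theorem int_fold (φ : FD) (hφ : Fam φ) (d : ℕ) (hd : φ.A d) (hs : Squarefree d) :
    ∫ y in Set.Ioi (0 : ℝ), thg φ d y * y ^ ((φ.a : ℝ) / 2 - 3 / 4) =
      2 * ∫ y in Set.Ioi (1 : ℝ), thg φ d y * y ^ ((φ.a : ℝ) / 2 - 3 / 4) := by
  have hd0 : d ≠ 0 := hs.ne_zero
  obtain ⟨hc, C, c, hC, hc0, hb⟩ := Pool.Agent.H85R2.RG_CC4.CC4 φ hφ d hd0
  have ha : (φ.a : ℝ) ≤ 1 := by exact_mod_cast (fam_facts φ hφ).2.1
  set F : ℝ → ℝ := fun y => thg φ d y * y ^ ((φ.a : ℝ) / 2 - 3 / 4) with hF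
  have I1 : IntegrableOn F (Set.Ioi 1) := by
    have hex : IntegrableOn (fun w : ℝ => C * Real.exp (-(c * w))) (Set.Ioi 1) := by
      refine ((exp_neg_integrableOn_Ioi 1 hc0).const_mul C).congr (Eventually.of_forall fun w => ?_)
      simp only
      congr 2
      ring
    refine hex.mono' ?_ ?_
    · refine ContinuousOn.aestronglyMeasurable ?_ measurableSet_Ioi
      refine (hc.mono (Set.Ioi_subset_Ioi zero_le_one)).mul ?_
      intro y hy
      exact (Real.continuousAt_rpow_const _ _ (Or.inl (lt_trans one_pos hy).ne')).continuousWithinAt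
    · rw [ae_restrict_iff' measurableSet_Ioi]
      refine Eventually.of_forall fun y hy => ?_
      have hy1 : (1 : ℝ) ≤ y := le_of_lt hy
      have hy0 : (0 : ℝ) < y := by linarith
      rw [Real.norm_eq_abs, abs_mul, abs_of_nonneg (Real.rpow_nonneg hy0.le _)]
      refine le_trans (mul_le_of_le_one_right (abs_nonneg _) ?_) (hb y hy1)
      exact Real.rpow_le_one_of_one_le_of_nonpos hy1 (by linarith)
  have key : ∀ x ∈ Set.Ioi (0 : ℝ), (|(-1 : ℝ)| * x ^ ((-1 : ℝ) - 1)) •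
      (Set.indicator (Set.Ioo (0 : ℝ) 1) F (x ^ (-1 : ℝ))) = Set.indicator (Set.Ioi (1 : ℝ)) F x := by
    intro x hx
    have hx0 : (0 : ℝ) < x := hx
    by_cases h1 : 1 < x
    · have hm : x ^ (-1 : ℝ) ∈ Set.Ioo (0 : ℝ) 1 :=
        ⟨Real.rpow_pos_of_pos hx0 _, Real.rpow_lt_one_of_one_lt_of_neg h1 (by norm_num)⟩
      rw [Set.indicator_of_mem hm, Set.indicator_of_mem (show x ∈ Set.Ioi (1 : ℝ) from h1)]
      simp only [hF]
      have e0 : x ^ (-1 : ℝ) = 1 / x := by rw [Real.rpow_neg_one, one_div]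
      have e3 : (1 / x) ^ ((φ.a : ℝ) / 2 - 3 / 4) = x ^ (-((φ.a : ℝ) / 2 - 3 / 4)) := by
        rw [one_div, Real.inv_rpow hx0.le, ← Real.rpow_neg hx0.le]
      rw [e0, Pool.Agent.H306R2.RG.LnkC.CC3 φ hφ d hd hs x hx0, smul_eq_mul, e3, abs_neg, abs_one,
        one_mul]
      have : x ^ ((-1 : ℝ) - 1) * (x ^ ((1 : ℝ) / 2 + φ.a) * thg φ d x *
          x ^ (-((φ.a : ℝ) / 2 - 3 / 4))) =
          thg φ d x * (x ^ ((-1 : ℝ) - 1) * x ^ ((1 : ℝ) / 2 + φ.a) *
          x ^ (-((φ.a : ℝ) / 2 - 3 / 4))) := by ring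
      rw [this, ← Real.rpow_add hx0, ← Real.rpow_add hx0]
      congr 2
      ring
    · have hm : x ^ (-1 : ℝ) ∉ Set.Ioo (0 : ℝ) 1 := by
        intro h
        have h2 := h.2
        rw [Real.rpow_neg_one] at h2
        exact h1 ((inv_lt_one₀ hx0).mp h2)
      rw [Set.indicator_of_notMem hm, Set.indicator_of_notMem (show x ∉ Set.Ioi (1 : ℝ) from h1),
        smul_zero]
  have hcv := integral_comp_rpow_Ioi (Set.indicator (Set.Ioo (0 : ℝ) 1) F)
    (show (-1 : ℝ) ≠ 0 by norm_num)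
  have hci := integrableOn_Ioi_comp_rpow_iff (Set.indicator (Set.Ioo (0 : ℝ) 1) F)
    (show (-1 : ℝ) ≠ 0 by norm_num)
  rw [setIntegral_congr_fun measurableSet_Ioi key, setIntegral_indicator measurableSet_Ioi,
    setIntegral_indicator measurableSet_Ioo] at hcv
  have s1 : Set.Ioi (0 : ℝ) ∩ Set.Ioi 1 = Set.Ioi 1 :=
    Set.inter_eq_right.mpr (Set.Ioi_subset_Ioi zero_le_one)
  have s2 : Set.Ioi (0 : ℝ) ∩ Set.Ioo 0 1 = Set.Ioo 0 1 :=
    Set.inter_eq_right.mpr fun x hx => hx.1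
  rw [s1, s2] at hcv
  have I0 : IntegrableOn F (Set.Ioo 0 1) := by
    have h1 : IntegrableOn (Set.indicator (Set.Ioo (0 : ℝ) 1) F) (Set.Ioi 0) := by
      rw [← hci, integrableOn_congr_fun key measurableSet_Ioi]
      unfold IntegrableOn
      rw [integrable_indicator_iff measurableSet_Ioi]
      unfold IntegrableOn
      rw [Measure.restrict_restrict measurableSet_Ioi, Set.inter_comm, s1]
      exact I1
    unfold IntegrableOn at h1
    rw [integrable_indicator_iff measurableSet_Ioo] at h1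
    unfold IntegrableOn at h1
    rw [Measure.restrict_restrict measurableSet_Ioo, Set.inter_comm, s2] at h1
    exact h1
  have hu : Set.Ioi (0 : ℝ) = Set.Ioc 0 1 ∪ Set.Ioi 1 := (Set.Ioc_union_Ioi_eq_Ioi zero_le_one).symm
  have I0' : IntegrableOn F (Set.Ioc 0 1) := by
    rw [integrableOn_Ioc_iff_integrableOn_Ioo]
    exact I0
  rw [hu, setIntegral_union (Set.Ioc_disjoint_Ioi le_rfl) measurableSet_Ioi I0' I1,
    integral_Ioc_eq_integral_Ioo, ← hcv]
  ring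

/-- the terms of the expansion -/
theorem int_exp (φ : FD) (hφ : Fam φ) (d : ℕ) (hd0 : d ≠ 0) :
    HasSum (fun n : ℕ => cf φ d (n + 1) * ((n : ℝ) + 1) ^ φ.a *
        ∫ y in Set.Ioi (1 : ℝ), Real.exp (-(Real.pi * (((n : ℝ) + 1) ^ 2 / (φ.r * d)) * y)) *
          y ^ ((φ.a : ℝ) / 2 - 3 / 4))
      (∫ y in Set.Ioi (1 : ℝ), thg φ d y * y ^ ((φ.a : ℝ) / 2 - 3 / 4)) ∧
    Summable (fun n : ℕ => |cf φ d (n + 1) * ((n : ℝ) + 1) ^ φ.a *
        ∫ y in Set.Ioi (1 : ℝ), Real.exp (-(Real.pi * (((n : ℝ) + 1) ^ 2 / (φ.r * d)) * y)) *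
          y ^ ((φ.a : ℝ) / 2 - 3 / 4)|) := by
  have ha : (φ.a : ℝ) ≤ 1 := by exact_mod_cast (fam_facts φ hφ).2.1
  have hdR : (0 : ℝ) < d := by positivity
  have hrR : (0 : ℝ) < φ.r := by exact_mod_cast (fam_facts φ hφ).2.2
  have hb0 : 0 < Real.pi / (φ.r * d) := by positivity
  set F : ℕ → ℝ → ℝ := fun n y => cf φ d (n + 1) * ((n : ℝ) + 1) ^ φ.a *
    Real.exp (-(Real.pi * ((n : ℝ) + 1) ^ 2 * y / (φ.r * d))) * y ^ ((φ.a : ℝ) / 2 - 3 / 4) with hF
  have hex : IntegrableOn (fun w : ℝ => Real.exp (-(Real.pi / (φ.r * d) * w))) (Set.Ioi 1) := by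
    refine (exp_neg_integrableOn_Ioi 1 hb0).congr_fun (fun w _ => ?_) measurableSet_Ioi
    simp only
    congr 1
    ring
  set G : ℕ → ℝ := fun n => ((n : ℝ) + 1) * Real.exp (-(Real.pi / (φ.r * d) * 1)) ^ n with hG
  have hG0 : ∀ n, 0 ≤ G n := fun n => by simp only [hG]; positivity
  have hbd : ∀ n, ∀ y ∈ Set.Ioi (1 : ℝ), ‖F n y‖ ≤ G n * Real.exp (-(Real.pi / (φ.r * d) * y)) := by
    intro n y hy
    have hy1 : (1 : ℝ) ≤ y := le_of_lt hy
    have hy0 : (0 : ℝ) < y := by linarith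
    rw [Real.norm_eq_abs]
    simp only [hF, hG]
    rw [abs_mul, abs_of_nonneg (Real.rpow_nonneg hy0.le _)]
    refine le_trans (mul_le_of_le_one_right (abs_nonneg _) ?_)
      ((term_le φ hφ d hd0 y 1 one_pos hy1 n).trans (le_of_eq (mul_comm _ _)))
    exact Real.rpow_le_one_of_one_le_of_nonpos hy1 (by linarith)
  have hFi : ∀ n, Integrable (F n) (volume.restrict (Set.Ioi 1)) := by
    intro n
    refine (hex.const_mul (G n)).mono' ?_ ?_
    · refine ContinuousOn.aestronglyMeasurable ?_ measurableSet_Ioi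
      refine ContinuousOn.mul (by fun_prop) ?_
      intro y hy
      exact (Real.continuousAt_rpow_const _ _ (Or.inl (lt_trans one_pos hy).ne')).continuousWithinAt
    · rw [ae_restrict_iff' measurableSet_Ioi]
      exact Eventually.of_forall fun y hy => hbd n y hy
  have hsum : Summable fun n => ∫ y, ‖F n y‖ ∂(volume.restrict (Set.Ioi 1)) := by
    refine Summable.of_nonneg_of_le (fun n => integral_nonneg fun y => norm_nonneg _) (fun n => ?_)
      ((summable_geo φ hφ d hd0 1 one_pos).mul_right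
        (∫ w in Set.Ioi (1 : ℝ), Real.exp (-(Real.pi / (φ.r * d) * w))))
    calc ∫ y, ‖F n y‖ ∂(volume.restrict (Set.Ioi 1))
        ≤ ∫ y in Set.Ioi (1 : ℝ), G n * Real.exp (-(Real.pi / (φ.r * d) * y)) :=
          setIntegral_mono_on (hFi n).norm (hex.const_mul (G n)) measurableSet_Ioi (hbd n)
      _ = _ := by rw [integral_const_mul]
  have h1 := hasSum_integral_of_summable_integral_norm hFi hsum
  have e1 : ∀ n, ∫ y, F n y ∂(volume.restrict (Set.Ioi 1)) =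
      cf φ d (n + 1) * ((n : ℝ) + 1) ^ φ.a *
        ∫ y in Set.Ioi (1 : ℝ), Real.exp (-(Real.pi * (((n : ℝ) + 1) ^ 2 / (φ.r * d)) * y)) *
          y ^ ((φ.a : ℝ) / 2 - 3 / 4) := by
    intro n
    rw [← integral_const_mul]
    refine setIntegral_congr_fun measurableSet_Ioi fun y _ => ?_
    simp only [hF]
    have : Real.pi * ((n : ℝ) + 1) ^ 2 * y / (φ.r * d) =
        Real.pi * (((n : ℝ) + 1) ^ 2 / (φ.r * d)) * y := by ring
    rw [this]
    ring
  have e2 : ∫ y in Set.Ioi (1 : ℝ), ∑' n, F n y =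
      ∫ y in Set.Ioi (1 : ℝ), thg φ d y * y ^ ((φ.a : ℝ) / 2 - 3 / 4) := by
    refine setIntegral_congr_fun measurableSet_Ioi fun y _ => ?_
    simp only [hF, thg]
    rw [tsum_mul_right]
  rw [e2] at h1
  simp only [e1] at h1
  refine ⟨h1, ?_⟩
  refine Summable.of_nonneg_of_le (fun n => abs_nonneg _) (fun n => ?_) hsum
  rw [← e1 n]
  exact abs_integral_le_integral_abs

/-- the value of the coefficients -/
theorem cf_two (φ : FD) (d i m : ℕ) (hm : Odd m) :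
    cf φ d (2 ^ i * m) = φ.η ^ i * js (φ.e * (d : ℤ)) m := by
  have hm0 : m ≠ 0 := by rintro rfl; exact absurd hm (by decide)
  have hf : (2 ^ i * m).factorization 2 = i := by
    rw [Nat.factorization_mul (by positivity) hm0, Finsupp.add_apply,
      Nat.Prime.factorization_pow Nat.prime_two, Finsupp.single_eq_same,
      Nat.factorization_eq_zero_of_not_dvd (by
        intro h; exact (Nat.not_even_iff_odd.mpr hm) (even_iff_two_dvd.mpr h)), add_zero]
  unfold cf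
  rw [hf, Nat.mul_div_cancel_left _ (by positivity)]
  unfold jo
  rw [if_pos hm]

/-- the index set -/
def PN (N : ℕ) : Finset ℕ :=
  insert 0 (((range N) ×ˢ ((Icc 1 N).filter (fun n => Odd n))).image (fun x => 2 ^ x.1 * x.2))

theorem two_inj {i j m n : ℕ} (hm : Odd m) (hn : Odd n) (h : 2 ^ i * m = 2 ^ j * n) :
    i = j ∧ m = n := by
  have hf : ∀ (i m : ℕ), Odd m → (2 ^ i * m).factorization 2 = i := by
    intro i m hm
    have hm0 : m ≠ 0 := by rintro rfl; exact absurd hm (by decide)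
    rw [Nat.factorization_mul (by positivity) hm0, Finsupp.add_apply,
      Nat.Prime.factorization_pow Nat.prime_two, Finsupp.single_eq_same,
      Nat.factorization_eq_zero_of_not_dvd (by
        intro h; exact (Nat.not_even_iff_odd.mpr hm) (even_iff_two_dvd.mpr h)), add_zero]
  have h1 := hf i m hm
  rw [h, hf j n hn] at h1
  subst h1
  exact ⟨rfl, Nat.eq_of_mul_eq_mul_left (by positivity) h⟩

theorem sum_PN (f : ℕ → ℝ) (h0 : f 0 = 0) (N : ℕ) :
    ∑ n ∈ PN N, f n = ∑ i ∈ range N, ∑ m ∈ (Icc 1 N).filter (fun n => Odd n), f (2 ^ i * m) := by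
  unfold PN
  rw [Finset.sum_insert_of_eq_zero_if_notMem (fun _ => h0), Finset.sum_image, Finset.sum_product]
  rintro ⟨i, m⟩ hx ⟨j, n⟩ hy h
  simp only [Finset.coe_product, Set.mem_prod, Finset.mem_coe, Finset.mem_filter] at hx hy
  obtain ⟨h1, h2⟩ := two_inj hx.2.2 hy.2.2 h
  exact Prod.ext h1 h2

theorem tendsto_PN : Tendsto PN atTop atTop := by
  refine tendsto_atTop_finset_of_monotone ?_ ?_
  · intro M N hMN
    unfold PN
    refine Finset.insert_subset_insert _ (Finset.image_subset_image (Finset.product_subset_product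
      (Finset.range_subset_range.mpr hMN) (Finset.filter_subset_filter _
        (Finset.Icc_subset_Icc le_rfl hMN))))
  · intro n
    rcases Nat.eq_zero_or_pos n with rfl | hn
    · exact ⟨0, by simp [PN]⟩
    · obtain ⟨k, m, hm, rfl⟩ := Nat.exists_eq_two_pow_mul_odd hn.ne'
      refine ⟨2 ^ k * m, ?_⟩
      unfold PN
      refine Finset.mem_insert_of_mem (Finset.mem_image.mpr ⟨(k, m), ?_, rfl⟩)
      rw [Finset.mem_product, Finset.mem_filter, Finset.mem_range, Finset.mem_Icc]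
      have hm0 : 0 < m := hm.pos
      refine ⟨?_, ⟨hm0, ?_⟩, hm⟩
      · calc k < 2 ^ k := Nat.lt_two_pow_self
          _ ≤ 2 ^ k * m := Nat.le_mul_of_pos_right _ hm0
      · exact Nat.le_mul_of_pos_left _ (by positivity)

theorem t_REP : S_REP := by
  intro φ hφ d hd hs
  have hd0 : d ≠ 0 := hs.ne_zero
  have hdR : (0 : ℝ) < d := by positivity
  have hrR : (0 : ℝ) < φ.r := by exact_mod_cast (fam_facts φ hφ).2.2
  have hq : (0 : ℝ) < φ.r * d := by positivity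
  set q : ℝ := φ.r * d with hqd
  obtain ⟨h1, h2⟩ := int_exp φ hφ d hd0
  have hgm : 0 < gm (1 / 2 + (φ.a : ℝ)) := by
    unfold gm
    refine mul_pos (Real.rpow_pos_of_pos Real.pi_pos _) (Real.Gamma_pos_of_pos ?_)
    have : (0 : ℝ) ≤ φ.a := Nat.cast_nonneg _
    linarith
  -- the terms
  set T : ℕ → ℝ := fun n => if n = 0 then 0 else
    cf φ d n / Real.sqrt n * IG φ.a ((n : ℝ) ^ 2 * (1 / q)) with hT
  have hterm : ∀ n : ℕ, cf φ d (n + 1) * ((n : ℝ) + 1) ^ φ.a *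
        ∫ y in Set.Ioi (1 : ℝ), Real.exp (-(Real.pi * (((n : ℝ) + 1) ^ 2 / q) * y)) *
          y ^ ((φ.a : ℝ) / 2 - 3 / 4) = q ^ ((φ.a : ℝ) / 2 + 1 / 4) * T (n + 1) := by
    intro n
    have hn : (0 : ℝ) < (n : ℝ) + 1 := by positivity
    rw [IG_sub φ.a (show 0 < ((n : ℝ) + 1) ^ 2 / q by positivity)]
    simp only [hT, if_neg (Nat.succ_ne_zero n)]
    push_cast
    rw [show ((n : ℝ) + 1) ^ 2 / q = ((n : ℝ) + 1) ^ 2 * (1 / q) by ring]
    have e1 : (((n : ℝ) + 1) ^ 2 * (1 / q)) ^ (-((φ.a : ℝ) / 2 + 1 / 4)) =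
        q ^ ((φ.a : ℝ) / 2 + 1 / 4) * (((n : ℝ) + 1) ^ φ.a * Real.sqrt ((n : ℝ) + 1))⁻¹ := by
      have e0 : (1 / q) ^ (-((φ.a : ℝ) / 2 + 1 / 4)) = q ^ ((φ.a : ℝ) / 2 + 1 / 4) := by
        rw [one_div, Real.inv_rpow hq.le, Real.rpow_neg hq.le, inv_inv]
      rw [Real.mul_rpow (by positivity) (by positivity), e0, ← Real.rpow_natCast (((n : ℝ) + 1)) 2, ← Real.rpow_mul hn.le,
        Real.sqrt_eq_rpow, ← Real.rpow_natCast (((n : ℝ) + 1)) φ.a, ← Real.rpow_add hn,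
        ← Real.rpow_neg hn.le, mul_comm]
      congr 2
      push_cast
      ring
    rw [e1]
    have : ((n : ℝ) + 1) ^ φ.a ≠ 0 := by positivity
    field_simp
  simp only [← hqd] at h1 h2
  simp only [hterm] at h1 h2
  have hqp : 0 < q ^ ((φ.a : ℝ) / 2 + 1 / 4) := Real.rpow_pos_of_pos hq _
  have h3 : HasSum (fun n : ℕ => T (n + 1)) ((q ^ ((φ.a : ℝ) / 2 + 1 / 4))⁻¹ *
      ∫ y in Set.Ioi (1 : ℝ), thg φ d y * y ^ ((φ.a : ℝ) / 2 - 3 / 4)) := by
    have h := h1.mul_left (q ^ ((φ.a : ℝ) / 2 + 1 / 4))⁻¹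
    have e : (fun n : ℕ => (q ^ ((φ.a : ℝ) / 2 + 1 / 4))⁻¹ *
        (q ^ ((φ.a : ℝ) / 2 + 1 / 4) * T (n + 1))) = fun n => T (n + 1) := by
      funext n
      rw [← mul_assoc, inv_mul_cancel₀ hqp.ne', one_mul]
    rw [e] at h
    exact h
  have h4 : HasSum T ((q ^ ((φ.a : ℝ) / 2 + 1 / 4))⁻¹ *
      ∫ y in Set.Ioi (1 : ℝ), thg φ d y * y ^ ((φ.a : ℝ) / 2 - 3 / 4)) := by
    rw [← hasSum_nat_add_iff' 1]
    have hT0 : T 0 = 0 := by simp [hT]
    rw [Finset.sum_range_one, hT0, sub_zero]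
    exact h3
  have hval : (q ^ ((φ.a : ℝ) / 2 + 1 / 4))⁻¹ *
      ∫ y in Set.Ioi (1 : ℝ), thg φ d y * y ^ ((φ.a : ℝ) / 2 - 3 / 4) =
      gm (1 / 2 + φ.a) / 2 * LLg φ d (1 / 2) := by
    unfold LLg
    have e1 : ((1 / 2 : ℝ) + φ.a) / 2 - 1 = (φ.a : ℝ) / 2 - 3 / 4 := by ring
    have e2 : ((1 / 2 : ℝ) + φ.a) / 2 = (φ.a : ℝ) / 2 + 1 / 4 := by ring
    rw [e1, int_fold φ hφ d hd hs, e2, ← hqd]
    generalize (∫ y in Set.Ioi (1 : ℝ), thg φ d y * y ^ ((φ.a : ℝ) / 2 - 3 / 4)) = X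
    generalize q ^ ((φ.a : ℝ) / 2 + 1 / 4) = Y at hqp
    generalize gm (1 / 2 + (φ.a : ℝ)) = Z at hgm
    field_simp
  rw [hval] at h4
  have h5 := h4.comp tendsto_PN
  refine h5.congr fun N => ?_
  show ∑ n ∈ PN N, T n = _
  rw [sum_PN T (by simp [hT]) N]
  unfold EN Q122.FM.ES
  rw [← Finset.sum_add_distrib]
  refine Finset.sum_congr rfl fun i _ => ?_
  have hsp : ∀ g : ℕ → ℝ, ∑ m ∈ (Icc 1 N).filter (fun n => Odd n), g m =
      ∑ m ∈ (Icc 1 N).filter (fun n => Odd n ∧ ¬ IsSquare n), g m +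
      ∑ m ∈ (Icc 1 N).filter (fun n => Odd n ∧ IsSquare n), g m := by
    intro g
    rw [← Finset.sum_filter_not_add_sum_filter ((Icc 1 N).filter (fun n => Odd n))
      (fun n => IsSquare n), Finset.filter_filter, Finset.filter_filter]
  have hg : ∀ m ∈ (Icc 1 N).filter (fun n => Odd n), T (2 ^ i * m) =
      (par φ).η ^ i * js ((par φ).e * (d : ℤ)) m / Real.sqrt ((2 : ℝ) ^ i * m) *
      IG (par φ).a (((2 : ℝ) ^ i * m) ^ 2 * (1 / q)) := by
    intro m hm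
    have hmo := (Finset.mem_filter.mp hm).2
    have hm0 : m ≠ 0 := by rintro rfl; exact absurd hmo (by decide)
    simp only [hT, if_neg (show 2 ^ i * m ≠ 0 by positivity)]
    rw [cf_two φ d i m hmo]
    push_cast
    rfl
  rw [Finset.sum_congr rfl hg, hsp]

end

end Pool.Agent.Q153.FM
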